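import Pool.Agent.Lib_MP_22d2c8_oa.Bound
import Pool.Agent.Lib_MP_22d2c8_oa.Avg
import Pool.Agent.Lib_MP_22d2c8_oa.Aver

/-!
# One scale with deleted variables: the linear algebra
-/

set_option linter.unusedSectionVars false

namespace Pool.Agent.Lib_MP_22d2c8_lv

open Finset Pool.Agent.Lib_MP_22d2c8_sym Pool.Agent.Lib_MP_22d2c8_ol Pool.Agent.Lib_MP_22d2c8_oa

variable {n : ℕ}

/-- One scale, fixed assignment outside `A ∪ B`, for arbitrary sets `A`, `B`. -/
theorem one_alpha_gen (A B : Finset (Fin n)) (ρ e : ℕ) (hρn : ρ ≤ n)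
    (hlow : 2 ^ e * (lows A B ρ).card ≤ 2 ^ (2 * n - 1))
    (C : Circuit (Inp n)) (K ω k : ℕ)
    (hop : ∀ g, C.Big K g → SubPow (2 ^ ω) (C.op g)) (hout : C.Big K C.out) (Z : Finset C.Gate)
    (hZ : ∀ g ∈ Z, C.Big K g) (hZc : Z.card + 2 * k + 2 ≤ ρ)
    (α : Fin n ⊕ Fin n → Bool)
    (hcor : 2 * ((2 : ℝ) ^ (2 * n - 1) * 2 ^ (2 * n)) / 2 ^ k ≤
      cor A B α fun x => sgn (C.val x C.out)) :
    e ≤ Z.card +
      (ω * ((2 * (tB C K (A.disjSum B) + wsh C K (A.disjSum B) Z) + 1) +
          (Z.card + 1 + (tB C K (A.disjSum B) + wsh C K (A.disjSum B) Z))) +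
        2 ^ max K 1 * (2 * (tB C K (A.disjSum B) + wsh C K (A.disjSum B) Z) + 1)) + 2 * k := by
  classical
  set m := ω * ((2 * (tB C K (A.disjSum B) + wsh C K (A.disjSum B) Z) + 1) +
          (Z.card + 1 + (tB C K (A.disjSum B) + wsh C K (A.disjSum B) Z))) +
        2 ^ max K 1 * (2 * (tB C K (A.disjSum B) + wsh C K (A.disjSum B) Z) + 1) with hm
  have hκ : ∀ t, t ∉ lows A B ρ → kap A B t ≤ 2 ^ (n - ρ) := by
    intro t ht
    have h1 : ¬ (2 ^ n < 2 ^ ρ * kap A B t) := fun h =>
      ht (mem_filter.2 ⟨mem_univ _, h⟩)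
    have h2 : 2 ^ n = 2 ^ ρ * 2 ^ (n - ρ) := by
      rw [← pow_add]
      congr 1
      omega
    rw [h2] at h1
    exact Nat.le_of_mul_le_mul_left (Nat.le_of_not_lt h1) (by positivity)
  have h4 := hlow
  have h4' : (2 : ℝ) ^ e * (lows A B ρ).card ≤ 2 ^ (2 * n - 1) := by
    exact_mod_cast h4
  set α' : Fin n → Bool := fun i => α (Sum.inl i) with hα'
  set β' : Fin n → Bool := fun i => α (Sum.inr i) with hβ'
  have hαe : α = Sum.elim α' β' := by
    funext w
    rcases w with w | w <;> rfl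
  have hceq := cor_eq C K A B Z α α' β' hαe
  set I := (gss Z).sigma fun z => ims C K A B Z α z with hI
  set Lw : ℝ := ((lows A B ρ).card : ℝ) with hLw
  have hLw0 : 0 ≤ Lw := Nat.cast_nonneg _
  have hsig : cor A B α (fun x => sgn (C.val x C.out)) = ∑ c ∈ I,
      ∑ t ∈ cls C K A B Z α c.1 c.2, ∑ q ∈ con C Z c.1 c.2,
        sgn (c.2 C.out (Sum.elim q.1 q.2)) * chi (fm A B α' β' t q) := by
    rw [hceq, hI, sum_sigma]
  have hImg : ∀ z, (ims C K A B Z α z).card ≤ 2 ^ m := fun z =>
    ims_card C K A B Z α ω hop hout hZ z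
  have hgss : (gss Z).card ≤ 2 ^ Z.card := by
    have := supp_card Z
    unfold gss
    convert this
  have hIc : (I.card : ℝ) ≤ 2 ^ Z.card * 2 ^ m := by
    have h1 : I.card ≤ 2 ^ Z.card * 2 ^ m := by
      rw [hI, card_sigma]
      refine (sum_le_card_nsmul _ _ (2 ^ m) fun z _ => hImg z).trans ?_
      rw [smul_eq_mul]
      exact Nat.mul_le_mul_right _ hgss
    exact_mod_cast h1
  have hRT : ∑ c ∈ I, ((con C Z c.1 c.2).card : ℝ) * (cls C K A B Z α c.1 c.2).card =
      2 ^ (2 * n - 1) * 2 ^ (2 * n) := by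
    rw [hI, sum_sigma]
    exact count_RT C K A B Z α
  have hTT : ∑ c ∈ I, ((cls C K A B Z α c.1 c.2).card : ℝ) ≤ 2 ^ Z.card * 2 ^ (2 * n - 1) := by
    rw [hI, sum_sigma]
    rw [sum_congr rfl fun z _ => count_T C K A B Z α z, sum_const, nsmul_eq_mul]
    refine mul_le_mul_of_nonneg_right ?_ (by positivity)
    exact_mod_cast hgss
  have hmain := class_sum I (fun c => ∑ t ∈ cls C K A B Z α c.1 c.2, ∑ q ∈ con C Z c.1 c.2,
        sgn (c.2 C.out (Sum.elim q.1 q.2)) * chi (fm A B α' β' t q))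
    (fun c => ((cls C K A B Z α c.1 c.2).card : ℝ)) (fun c => ((con C Z c.1 c.2).card : ℝ))
    (2 ^ n * 2 ^ (n - ρ)) (2 ^ n * (2 ^ n * Lw))
    (2 ^ Z.card * 2 ^ (2 * n - 1) * (2 ^ (2 * n - 1) * 2 ^ (2 * n)))
    (2 ^ Z.card * 2 ^ m * (2 ^ (2 * n - 1) * 2 ^ (2 * n)))
    (fun _ _ => Nat.cast_nonneg _) (fun _ _ => Nat.cast_nonneg _) (by positivity)
    (mul_nonneg (pow_nonneg (by norm_num) _) (mul_nonneg (pow_nonneg (by norm_num) _) hLw0))
    (fun c _ => by
      have h1 := corr_class A B α' β' (con C Z c.1 c.2) (cls C K A B Z α c.1 c.2)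
        (lows A B ρ) (2 ^ (n - ρ))
        (fun q => sgn (c.2 C.out (Sum.elim q.1 q.2))) (fun q => (abs_sgn _).le) hκ
      refine h1.trans (le_of_eq ?_)
      push_cast
      ring)
    (by
      rw [hRT]
      exact mul_le_mul_of_nonneg_right hTT (by positivity))
    (by
      rw [hRT]
      exact mul_le_mul_of_nonneg_right hIc (by positivity))
  rw [← hsig] at hmain
  exact arith2 n Z.card ρ m e k Lw _ hZc hρn h4' hcor
    ((le_abs_self _).trans hmain)

open Classical in
/-- The grid sets without the deleted variables. -/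
noncomputable def dA (n p L : ℕ) (v : ZMod p) (Del : Finset (Fin n ⊕ Fin n)) : Finset (Fin n) :=
  (gA n p L v).filter fun i => Sum.inl i ∉ Del

open Classical in
/-- The grid sets without the deleted variables. -/
noncomputable def dB (n p L : ℕ) (v : ZMod p) (Del : Finset (Fin n ⊕ Fin n)) : Finset (Fin n) :=
  (gB n p L v).filter fun i => Sum.inr i ∉ Del

open Classical in
/-- The number of deleted variables in the grid sets. -/
noncomputable def eA (n p L : ℕ) (v : ZMod p) (Del : Finset (Fin n ⊕ Fin n)) : ℕ :=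
  ((gA n p L v).filter fun i => Sum.inl i ∈ Del).card

open Classical in
/-- The number of deleted variables in the grid sets. -/
noncomputable def eB (n p L : ℕ) (v : ZMod p) (Del : Finset (Fin n ⊕ Fin n)) : ℕ :=
  ((gB n p L v).filter fun i => Sum.inr i ∈ Del).card

/-- Low rank is rare on the grid, also after deleting few variables. -/
theorem lows_del {p L : ℕ} [hp : Fact p.Prime] (h2p : p ≠ 2) (hn' : 2 * p * p ≤ n) (hL1 : 1 ≤ L)
    (hL2 : 2 * L ≤ p) (v v' : ZMod p) (Del : Finset (Fin n ⊕ Fin n))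
    (hA : 16 * eA n p L v Del ≤ p * L) (hB : 16 * eB n p L v' Del ≤ p * L) :
    2 ^ (p * p / 8) * (lows (dA n p L v Del) (dB n p L v' Del) (p * L / 16)).card ≤
      2 ^ (2 * n - 1) := by
  classical
  have hp0 : 0 < p := hp.out.pos
  set s := p / (2 * L) with hs
  set ρ := p * L / 16 with hρ
  set x := s * L with hx
  have hx1 : 2 * x ≤ p := by
    have h1 : p / (2 * L) * (2 * L) ≤ p := Nat.div_mul_le_self _ _
    calc 2 * x = p / (2 * L) * (2 * L) := by rw [hx, hs]; ring
      _ ≤ p := h1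
  have hx2 : p ≤ 4 * x := by
    have h1 : 1 ≤ s := by
      rw [hs]
      exact (Nat.one_le_div_iff (by omega)).2 hL2
    have h2 : p < (s + 1) * (2 * L) := by
      rw [hs]
      exact Nat.lt_mul_of_div_lt (Nat.lt_succ_self _) (by omega)
    have h3 : (s + 1) * (2 * L) ≤ (2 * s) * (2 * L) := Nat.mul_le_mul_right _ (by omega)
    have h4 : (2 * s) * (2 * L) = 4 * x := by rw [hx]; ring
    omega
  have hρ16 : 16 * ρ ≤ p * L := by
    rw [hρ, mul_comm 16]
    exact Nat.div_mul_le_self _ _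
  have h8 : 8 * (p * p / 8) ≤ p * p := by
    rw [mul_comm 8]
    exact Nat.div_mul_le_self _ _
  have hsubA : dA n p L v Del ⊆ gA n p L v := filter_subset _ _
  have hsubB : dB n p L v' Del ⊆ gB n p L v' := filter_subset _ _
  have hcA : ∀ Φ : Finset ℕ, ((gA n p L v).filter fun i => fc p i ∉ Φ).card ≤
      ((dA n p L v Del).filter fun i => fc p i ∉ Φ).card + eA n p L v Del := by
    intro Φ
    have h1 : ((gA n p L v).filter fun i => fc p i ∉ Φ) ⊆
        ((dA n p L v Del).filter fun i => fc p i ∉ Φ) ∪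
          ((gA n p L v).filter fun i => Sum.inl i ∈ Del) := by
      intro i hi
      rw [mem_filter] at hi
      by_cases h : Sum.inl i ∈ Del
      · exact mem_union_right _ (mem_filter.2 ⟨hi.1, h⟩)
      · exact mem_union_left _ (mem_filter.2 ⟨mem_filter.2 ⟨hi.1, h⟩, hi.2⟩)
    exact (card_le_card h1).trans (card_union_le _ _)
  have hcB : (gB n p L v').card ≤ (dB n p L v' Del).card + eB n p L v' Del := by
    have h1 : gB n p L v' ⊆ dB n p L v' Del ∪ ((gB n p L v').filter fun i => Sum.inr i ∈ Del) := by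
      intro i hi
      by_cases h : Sum.inr i ∈ Del
      · exact mem_union_right _ (mem_filter.2 ⟨hi, h⟩)
      · exact mem_union_left _ (mem_filter.2 ⟨hi, h⟩)
    exact (card_le_card h1).trans (card_union_le _ _)
  have h1 := lows_card (fc p) (dA n p L v Del) (dB n p L v' Del) (L ^ 2) ρ s (ρ * s + p * p / 8)
    (fun i hi i' hi' hne => by
      refine le_trans (card_le_card ?_) (gB_sep h2p v v' i i' (hsubA hi) (hsubA hi') hne)
      exact inter_subset_inter (image_subset_image hsubB) (image_subset_image hsubB))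
    (by
      intro Φ hΦ
      have h0 := gA_card (L := L) hn' (by omega) v Φ
      have h00 := hcA Φ
      have h3 : 2 * s ≤ p := by
        have : s ≤ x := by
          rw [hx]
          exact Nat.le_mul_of_pos_right _ hL1
        omega
      have h4 : p ≤ 2 * (p - Φ.card) := by omega
      have h5 : p * L ≤ 2 * (p - Φ.card) * L := Nat.mul_le_mul_right _ h4
      have h6 : 2 * (p - Φ.card) * L = 2 * ((p - Φ.card) * L) := by ring
      omega)
    (by
      have hB1 := gB_card hn' (by omega : L ≤ p) v'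
      have hB2 : 15 * (p * L) ≤ 16 * (dB n p L v' Del).card := by omega
      have h3 : 2 * s * (15 * (p * L)) ≤ 2 * s * (16 * (dB n p L v' Del).card) :=
        Nat.mul_le_mul_left _ hB2
      have h3' : 2 * s * (16 * (dB n p L v' Del).card) = 16 * (2 * s * (dB n p L v' Del).card) := by
        ring
      have h4 : 2 * s * (15 * (p * L)) = 30 * (p * x) := by rw [hx]; ring
      have h5 : s ^ 2 * L ^ 2 = x * x := by rw [hx]; ring
      have h6 : 16 * (ρ * s) ≤ p * x := by
        calc 16 * (ρ * s) = (16 * ρ) * s := by ring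
          _ ≤ (p * L) * s := Nat.mul_le_mul_right _ hρ16
          _ = p * x := by rw [hx]; ring
      have h7 : 2 * (x * x) ≤ p * x := by
        calc 2 * (x * x) = (2 * x) * x := by ring
          _ ≤ p * x := Nat.mul_le_mul_right _ hx1
      have h9 : p * p ≤ 4 * (p * x) := by
        calc p * p ≤ p * (4 * x) := Nat.mul_le_mul_left _ hx2
          _ = 4 * (p * x) := by ring
      rw [h5]
      omega)
  rw [pow_add] at h1
  have h2 : 2 ^ (ρ * s) * (2 ^ (p * p / 8) * (lows (dA n p L v Del) (dB n p L v' Del) ρ).card) ≤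
      2 ^ (ρ * s) * 2 ^ (2 * n - 1) := by
    rw [← mul_assoc]
    exact h1
  exact Nat.le_of_mul_le_mul_left h2 (by positivity)

end Pool.Agent.Lib_MP_22d2c8_lv
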