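import Pool.Agent.Lib_MP_22d2c8_lv.Growth

/-!
# Thresholds, windows, pigeonhole
-/

namespace Pool.Agent.Lib_MP_22d2c8_lv

open Finset

/-- The thresholds. -/
def thr (B j θ i : ℕ) : ℕ := (fun y => B ^ 2 * y * Fm B j y)^[i] (max θ B)

theorem thr_succ (B j θ i : ℕ) :
    thr B j θ (i + 1) = B ^ 2 * thr B j θ i * Fm B j (thr B j θ i) := by
  unfold thr
  rw [Function.iterate_succ_apply']

theorem Fm_succ (B j θ : ℕ) : Fm B (j + 1) θ = thr B j θ (B * θ) := rfl

theorem Fm_pos (B : ℕ) (hB : 1 ≤ B) (j : ℕ) : ∀ y, 1 ≤ y → 1 ≤ Fm B j y := by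
  induction j with
  | zero =>
    intro y hy
    exact Nat.one_le_pow _ _ hy
  | succ j ih =>
    intro y hy
    rw [Fm_succ]
    have key : ∀ i, 1 ≤ thr B j y i := by
      intro i
      induction i with
      | zero => exact le_trans hy (le_max_left _ _)
      | succ i ihi =>
        rw [thr_succ]
        exact Nat.mul_pos (Nat.mul_pos (by positivity) ihi) (ih _ ihi)
    exact key _

theorem thr_pos (B : ℕ) (hB : 1 ≤ B) (j θ i : ℕ) : B ≤ thr B j θ i ∧ θ ≤ thr B j θ i := by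
  induction i with
  | zero => exact ⟨le_max_right _ _, le_max_left _ _⟩
  | succ i ih =>
    rw [thr_succ]
    have h1 : 1 ≤ thr B j θ i := hB.trans ih.1
    have h2 := Fm_pos B hB j _ h1
    have h3 : thr B j θ i ≤ B ^ 2 * thr B j θ i * Fm B j (thr B j θ i) := by
      calc thr B j θ i = 1 * thr B j θ i * 1 := by ring
        _ ≤ B ^ 2 * thr B j θ i * Fm B j (thr B j θ i) :=
          Nat.mul_le_mul (Nat.mul_le_mul_right _ (Nat.one_le_pow _ _ hB)) h2
    exact ⟨ih.1.trans h3, ih.2.trans h3⟩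

theorem thr_mono (B : ℕ) (hB : 1 ≤ B) (j θ : ℕ) : Monotone (thr B j θ) := by
  refine monotone_nat_of_le_succ fun i => ?_
  rw [thr_succ]
  have h1 : 1 ≤ thr B j θ i := hB.trans (thr_pos B hB j θ i).1
  have h2 := Fm_pos B hB j _ h1
  calc thr B j θ i = 1 * thr B j θ i * 1 := by ring
    _ ≤ B ^ 2 * thr B j θ i * Fm B j (thr B j θ i) :=
      Nat.mul_le_mul (Nat.mul_le_mul_right _ (Nat.one_le_pow _ _ hB)) h2

/-- Pigeonhole for two families of masses. -/
theorem pick (m : ℕ) (M N : ℕ → ℕ) (a1 a2 A1 A2 P : ℕ) (hM : ∑ i ∈ range m, M i ≤ A1)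
    (hN : ∑ i ∈ range m, N i ≤ A2) (h : a1 * A1 + a2 * A2 < m * P) :
    ∃ i < m, a1 * M i ≤ P ∧ a2 * N i ≤ P := by
  by_contra hcon
  push Not at hcon
  have h1 : ∀ i ∈ range m, P ≤ a1 * M i + a2 * N i := by
    intro i hi
    by_cases h2 : a1 * M i ≤ P
    · have := hcon i (mem_range.1 hi) h2
      omega
    · omega
  have h2 := card_nsmul_le_sum (range m) _ P h1
  rw [card_range, smul_eq_mul, sum_add_distrib, ← mul_sum, ← mul_sum] at h2
  have h3 := Nat.mul_le_mul_left a1 hM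
  have h4 := Nat.mul_le_mul_left a2 hN
  omega

/-- Disjoint windows. -/
theorem windows {ι : Type*} (H : Finset ι) (f w : ι → ℕ) (y : ℕ → ℕ) (hy : Monotone y) (m : ℕ) :
    ∑ i ∈ range m, ∑ h ∈ H.filter (fun h => y i < f h ∧ f h ≤ y (i + 1)), w h ≤ ∑ h ∈ H, w h := by
  classical
  have h1 : ∀ i ∈ range m, ∑ h ∈ H.filter (fun h => y i < f h ∧ f h ≤ y (i + 1)), w h =
      ∑ h ∈ H, if y i < f h ∧ f h ≤ y (i + 1) then w h else 0 := by
    intro i _
    rw [sum_filter]
  rw [sum_congr rfl h1, sum_comm]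
  refine sum_le_sum fun h _ => ?_
  rw [← sum_filter, sum_const, smul_eq_mul]
  have h2 : ((range m).filter fun i => y i < f h ∧ f h ≤ y (i + 1)).card ≤ 1 := by
    refine card_le_one.2 ?_
    intro i hi j hj
    obtain ⟨-, hi1, hi2⟩ := mem_filter.1 hi
    obtain ⟨-, hj1, hj2⟩ := mem_filter.1 hj
    by_contra hne
    rcases Nat.lt_or_gt_of_ne hne with hlt | hlt
    · have := hy (Nat.succ_le_of_lt hlt)
      simp only [Nat.succ_eq_add_one] at this
      omega
    · have := hy (Nat.succ_le_of_lt hlt)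
      simp only [Nat.succ_eq_add_one] at this
      omega
  calc _ ≤ 1 * w h := Nat.mul_le_mul_right _ h2
    _ = w h := one_mul _

end Pool.Agent.Lib_MP_22d2c8_lv
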