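import Pool.Agent.Lib_MP_22d2c8_lv.Cut
import Pool.Agent.Lib_MP_22d2c8_lv.Thr

/-!
# The two top levels
-/

set_option linter.unusedSectionVars false

namespace Pool.Agent.Lib_MP_22d2c8_lv

open Finset Pool.Agent.Lib_MP_22d2c8_sym Pool.Agent.Lib_MP_22d2c8_ol Pool.Agent.Lib_MP_22d2c8_oa

variable {W U : Type} [DecidableEq W] (C : Circuit (W ⊕ U)) (K : ℕ)

open Classical in
/-- The shared gates outside `X`. -/
noncomputable def shr (X : Finset C.Gate) : Finset C.Gate :=
  univ.filter fun h => (C.Big K h ∧ h ∉ X) ∧ C.Shared K h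

theorem mem_shr {X : Finset C.Gate} {h : C.Gate} :
    h ∈ shr C K X ↔ (C.Big K h ∧ h ∉ X) ∧ C.Shared K h := by
  classical
  unfold shr
  rw [mem_filter]
  exact ⟨fun h => h.2, fun h => ⟨mem_univ _, h⟩⟩

/-- The right side of the one scale inequality. -/
theorem rhs_bound (X : Finset C.Gate) {k p Q a : ℕ} (hp : 1 ≤ p) (hone : OneSc C K k p Q a)
    (B y y' : ℕ) (hB : 1 ≤ B) (hyB : B ≤ y) (hyK : max K 1 ≤ y) (hQB : 20 * (Q * C.wires K) ≤ B * (p * p))
    (hN : 4 * Q * ∑ h ∈ (shr C K X).filter (fun h => y < B * leaf C K X h ∧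
      B * leaf C K X h ≤ y'), fo C K h ≤ p * p)
    (Z : Finset C.Gate) (Del : Finset W) (L : ℕ) (hZ : ∀ g ∈ Z, C.Big K g)
    (hXZ : ∀ h ∈ X, C.Big K h → h ∈ Z) (hDel : 64 * Del.card ≤ p * p)
    (hL1 : 1 ≤ L) (haL : a * L ≤ p) (hZc : 16 * (Z.card + 2 * k + 2) ≤ p * L)
    (hDL : y ^ 2 * L ≤ p)
    (hh : ∀ h, C.Big K h → h ∉ Z → C.Shared K h → B * bd C K Z Del h ≤ y ^ 2 ∨
      (y < B * leaf C K X h ∧ B * leaf C K X h ≤ y')) : False := by
  classical
  have h0 := hone Z Del L hZ hDel hL1 haL hZc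
  set N := ∑ h ∈ (shr C K X).filter (fun h => y < B * leaf C K X h ∧
      B * leaf C K X h ≤ y'), fo C K h with hNdef
  set S := ∑ h ∈ univ.filter (fun h => C.Big K h ∧ h ∉ Z ∧ C.Shared K h),
        (fo C K h : ℝ) * min 1 ((bd C K Z Del h : ℝ) * L / p) with hS
  have h0' : (p : ℝ) ^ 2 ≤ Q * ((L : ℝ) / p * ((max K 1 * C.wires K : ℕ) : ℝ) + S) := by
    refine h0.trans (le_of_eq ?_)
    rw [hS]
    congr!
  have hpR : (0 : ℝ) < p := by exact_mod_cast hp
  have hy1 : 1 ≤ y := hB.trans hyB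
  have hyR : (0 : ℝ) < y := by exact_mod_cast hy1
  have hBR : (0 : ℝ) < B := by exact_mod_cast hB
  have hLR : (L : ℝ) / p ≤ 1 / (y : ℝ) ^ 2 := by
    rw [div_le_div_iff₀ hpR (by positivity)]
    have : ((y ^ 2 * L : ℕ) : ℝ) ≤ p := by exact_mod_cast hDL
    push_cast at this
    linarith
  have hL0 : (0 : ℝ) ≤ (L : ℝ) / p := by positivity
  -- the first term
  have ht1 : (L : ℝ) / p * ((max K 1 * C.wires K : ℕ) : ℝ) ≤ (C.wires K : ℝ) / B := by
    have h1 : (L : ℝ) / p * ((max K 1 * C.wires K : ℕ) : ℝ) ≤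
        1 / (y : ℝ) ^ 2 * ((max K 1 * C.wires K : ℕ) : ℝ) :=
      mul_le_mul_of_nonneg_right hLR (Nat.cast_nonneg _)
    refine h1.trans ?_
    rw [div_mul_eq_mul_div, one_mul, div_le_div_iff₀ (by positivity) hBR]
    have h2 : max K 1 * B ≤ y ^ 2 := by
      rw [sq]
      exact Nat.mul_le_mul hyK hyB
    have h3 : max K 1 * C.wires K * B ≤ C.wires K * y ^ 2 := by
      calc max K 1 * C.wires K * B = C.wires K * (max K 1 * B) := by ring
        _ ≤ C.wires K * y ^ 2 := Nat.mul_le_mul_left _ h2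
    exact_mod_cast h3
  -- the second term
  have ht2 : S ≤ (C.wires K : ℝ) / B + N := by
    have h1 : ∀ h ∈ univ.filter (fun h => C.Big K h ∧ h ∉ Z ∧ C.Shared K h),
        (fo C K h : ℝ) * min 1 ((bd C K Z Del h : ℝ) * L / p) ≤ (fo C K h : ℝ) * (1 / B) +
          (if y < B * leaf C K X h ∧ B * leaf C K X h ≤ y' then (fo C K h : ℝ) else 0) := by
      intro h hmem
      obtain ⟨-, hB1, hZ1, hS1⟩ := mem_filter.1 hmem
      have hfo : (0 : ℝ) ≤ fo C K h := Nat.cast_nonneg _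
      rcases hh h hB1 hZ1 hS1 with h2 | h2
      · have h3 : min 1 ((bd C K Z Del h : ℝ) * L / p) ≤ 1 / B := by
          refine (min_le_right _ _).trans ?_
          have h4 : (bd C K Z Del h : ℝ) * L / p ≤ (bd C K Z Del h : ℝ) * (1 / (y : ℝ) ^ 2) := by
            rw [mul_div_assoc]
            exact mul_le_mul_of_nonneg_left hLR (Nat.cast_nonneg _)
          refine h4.trans ?_
          rw [mul_one_div, div_le_div_iff₀ (by positivity) hBR, one_mul]
          have h5 : ((B * bd C K Z Del h : ℕ) : ℝ) ≤ ((y ^ 2 : ℕ) : ℝ) := Nat.cast_le.2 h2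
          push_cast at h5
          linarith
        have h6 := mul_le_mul_of_nonneg_left h3 hfo
        refine h6.trans (le_add_of_nonneg_right ?_)
        split
        · exact hfo
        · exact le_rfl
      · rw [if_pos h2]
        have h3 : (fo C K h : ℝ) * min 1 ((bd C K Z Del h : ℝ) * L / p) ≤ fo C K h * 1 :=
          mul_le_mul_of_nonneg_left (min_le_left _ _) hfo
        rw [mul_one] at h3
        refine h3.trans (le_add_of_nonneg_left ?_)
        positivity
    refine (sum_le_sum h1).trans ?_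
    rw [sum_add_distrib, ← sum_mul]
    refine add_le_add ?_ ?_
    · rw [mul_one_div]
      refine div_le_div_of_nonneg_right ?_ hBR.le
      have h2 := sum_fo_le C K (univ.filter (fun h => C.Big K h ∧ h ∉ Z ∧ C.Shared K h))
      exact_mod_cast h2
    · rw [← sum_filter, hNdef, Nat.cast_sum]
      refine sum_le_sum_of_subset_of_nonneg ?_ fun _ _ _ => Nat.cast_nonneg _
      intro h hmem
      obtain ⟨hmem1, h2⟩ := mem_filter.1 hmem
      obtain ⟨-, hB1, hZ1, hS1⟩ := mem_filter.1 hmem1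
      exact mem_filter.2 ⟨(mem_shr C K).2 ⟨⟨hB1, fun hX => hZ1 (hXZ h hX hB1)⟩, hS1⟩, h2⟩
  have hQ0 : (0 : ℝ) ≤ Q := Nat.cast_nonneg _
  have h1 : (p : ℝ) ^ 2 ≤ Q * ((C.wires K : ℝ) / B + ((C.wires K : ℝ) / B + N)) :=
    h0'.trans (mul_le_mul_of_nonneg_left (add_le_add ht1 ht2) hQ0)
  have h2 : 20 * (Q * ((C.wires K : ℝ) / B)) ≤ (p : ℝ) ^ 2 := by
    have h3 : (20 : ℝ) * (Q * C.wires K) ≤ B * (p * p) := by exact_mod_cast hQB
    have h4 : 20 * (Q * ((C.wires K : ℝ) / B)) = 20 * (Q * C.wires K) / B := by ring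
    rw [h4, div_le_iff₀ hBR]
    linarith [sq (p : ℝ)]
  have h3 : 4 * (Q * (N : ℝ)) ≤ (p : ℝ) ^ 2 := by
    have h4 : ((4 * Q * N : ℕ) : ℝ) ≤ ((p * p : ℕ) : ℝ) := Nat.cast_le.2 hN
    push_cast at h4
    linarith [sq (p : ℝ)]
  have h5 : (0 : ℝ) < (p : ℝ) ^ 2 := by positivity
  linarith

/-- The two top levels. -/
theorem base {X : Finset C.Gate} {d e : ℕ} {lev : C.Gate → ℕ} (hlev : C.IsLev K X d lev)
    (hde : e + 2 = d) {k p Q a c' B : ℕ} (hk : 1 ≤ k) (hc : 1 ≤ c') (hp : 1 ≤ p)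
    (hone : OneSc C K k p Q a) (hW : C.wires K ≤ c' * (p * p))
    (hB : (200 + 20 * Q + max K 1 + a) * c' * d ≤ B)
    (Z : Finset C.Gate) (Del : Finset W) (hZ : ∀ g ∈ Z, C.Big K g)
    (hXZ : ∀ h ∈ X, C.Big K h → h ∈ Z) (θ : ℕ) (hθ : max K 1 ≤ θ)
    (hb : ∀ h, C.Big K h → h ∉ Z → C.Shared K h → lev h < e → bd C K Z Del h ≤ θ)
    (E : ℕ) (hE : Z.card ≤ k + E) (hE2 : 128 * d * Fm B 1 θ * E ≤ e * (p * p))
    (hDel : 128 * d * Del.card ≤ e * (p * p)) (hR1 : Fm B 1 θ ≤ p)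
    (hR2 : 640 * k * Fm B 1 θ ≤ p * p) : False := by
  classical
  have hd : 1 ≤ d := by omega
  have hθ1 : 1 ≤ θ := (le_max_right _ _).trans hθ
  set P := p * p with hP
  have hP1 : 1 ≤ P := Nat.mul_pos hp hp
  set Wr := C.wires K with hWr
  have hcd : 1 ≤ c' * d := Nat.mul_pos hc hd
  have hBsum : (200 + 20 * Q + max K 1 + a) * (c' * d) ≤ B := by rw [← mul_assoc]; exact hB
  have hB1 : 200 * (c' * d) ≤ B :=
    le_trans (Nat.mul_le_mul_right _ (by omega)) hBsum
  have hB2 : 20 * Q * (c' * d) ≤ B := le_trans (Nat.mul_le_mul_right _ (by omega)) hBsum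
  have hB3 : max K 1 ≤ B := le_trans (le_trans (by omega) (Nat.le_mul_of_pos_right _ hcd)) hBsum
  have hB4 : a ≤ B := le_trans (le_trans (by omega) (Nat.le_mul_of_pos_right _ hcd)) hBsum
  have hB0 : 1 ≤ B := (le_max_right _ _).trans hB3
  have hB5 : (200 + 20 * Q) * (c' * d) ≤ B := le_trans (Nat.mul_le_mul_right _ (by omega)) hBsum
  set y : ℕ → ℕ := thr B 0 θ with hy
  have hmono : Monotone y := thr_mono B hB0 0 θ
  have hR : Fm B 1 θ = y (B * θ) := Fm_succ B 0 θ
  -- the windows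
  have hM := (windows (low C K Z lev e) (bd C K Z Del) (bd C K Z Del) y hmono (B * θ)).trans
    (mass_low C K hlev Z Del hXZ e θ hθ hb)
  have hN := (windows (shr C K X) (fun h => B * leaf C K X h) (fo C K) y hmono (B * θ)).trans
    (sum_fo_le C K _)
  obtain ⟨i, him, hMi, hNi⟩ := pick (B * θ)
    (fun i => ∑ h ∈ (low C K Z lev e).filter (fun h => y i < bd C K Z Del h ∧
      bd C K Z Del h ≤ y (i + 1)), bd C K Z Del h)
    (fun i => ∑ h ∈ (shr C K X).filter (fun h => y i < B * leaf C K X h ∧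
      B * leaf C K X h ≤ y (i + 1)), fo C K h) (128 * d) (4 * Q) (θ * Wr) Wr P hM hN (by
      have h1 : 128 * d * (θ * Wr) ≤ 128 * (c' * d * θ * P) := by
        calc 128 * d * (θ * Wr) ≤ 128 * d * (θ * (c' * P)) :=
              Nat.mul_le_mul_left _ (Nat.mul_le_mul_left _ hW)
          _ = 128 * (c' * d * θ * P) := by ring
      have h2 : 4 * Q * Wr ≤ 4 * Q * (c' * d * θ * P) := by
        refine Nat.mul_le_mul_left _ (hW.trans ?_)
        calc c' * P = c' * 1 * 1 * P := by ring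
          _ ≤ c' * d * θ * P := Nat.mul_le_mul_right _ (Nat.mul_le_mul (Nat.mul_le_mul_left _ hd) hθ1)
      have h3 : (200 + 20 * Q) * (c' * d * θ * P) ≤ B * θ * P := by
        calc (200 + 20 * Q) * (c' * d * θ * P) = (200 + 20 * Q) * (c' * d) * θ * P := by ring
          _ ≤ B * θ * P := Nat.mul_le_mul_right _ (Nat.mul_le_mul_right _ hB5)
      have h4 : 1 ≤ c' * d * θ * P := Nat.mul_pos (Nat.mul_pos hcd hθ1) hP1
      have h5 : (200 + 20 * Q) * (c' * d * θ * P) =
          200 * (c' * d * θ * P) + 20 * (Q * (c' * d * θ * P)) := by ring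
      have h6 : 4 * Q * (c' * d * θ * P) = 4 * (Q * (c' * d * θ * P)) := by ring
      omega)
  obtain ⟨hyB, hyθ⟩ := thr_pos B hB0 0 θ i
  have hsucc : y (i + 1) = B ^ 2 * y i * y i ^ 2 := thr_succ B 0 θ i
  have hy1 : 1 ≤ y i := hB0.trans hyB
  have hyR : y (i + 1) ≤ Fm B 1 θ := by
    rw [hR]
    exact hmono (by omega)
  set Dn := y i ^ 2 with hDn
  have hDn1 : 1 ≤ Dn := Nat.one_le_pow _ _ hy1
  have hBy1 : 1 ≤ B ^ 2 * y i := Nat.mul_pos (Nat.pow_pos hB0) hy1
  have hDny : Dn ≤ y (i + 1) := by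
    rw [hsucc]
    exact Nat.le_mul_of_pos_left _ hBy1
  have hDnR : Dn ≤ Fm B 1 θ := hDny.trans hyR
  have hDnp : Dn ≤ p := hDnR.trans hR1
  have hyDn : y i * y i = Dn := by rw [hDn, sq]
  obtain ⟨T, D', hTB, hTc, hD'c, hbd⟩ := cutdel C K hlev Z Del hXZ e θ hθ hb (y i) (y (i + 1))
  -- the gates of the top level that are cut
  set T2 := (shr C K X).filter fun h => y (i + 1) < B * leaf C K X h with hT2
  have hT2c : y (i + 1) * T2.card ≤ B * Wr := by
    have hml : ∑ h ∈ shr C K X, leaf C K X h ≤ Wr := by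
      refine le_trans (le_of_eq ?_) (mass_leaf C K X)
      unfold shr
      congr!
    calc y (i + 1) * T2.card = ∑ _h ∈ T2, y (i + 1) := by rw [sum_const, smul_eq_mul, mul_comm]
      _ ≤ ∑ h ∈ T2, B * leaf C K X h := sum_le_sum fun h hh => (mem_filter.1 hh).2.le
      _ ≤ ∑ h ∈ shr C K X, B * leaf C K X h := sum_le_sum_of_subset (filter_subset _ _)
      _ = B * ∑ h ∈ shr C K X, leaf C K X h := by rw [mul_sum]
      _ ≤ B * Wr := Nat.mul_le_mul_left _ hml
  set Z' := Z ∪ T ∪ T2 with hZ'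
  have hZZ' : Z ⊆ Z' := fun g hg => mem_union_left _ (mem_union_left _ hg)
  have hTZ' : T ⊆ Z' := fun g hg => mem_union_left _ (mem_union_right _ hg)
  have hT2Z' : T2 ⊆ Z' := fun g hg => mem_union_right _ hg
  set L := p / Dn with hL
  have hL1 : 1 ≤ L := (Nat.one_le_div_iff (by omega)).2 hDnp
  have hDL : Dn * L ≤ p := Nat.mul_div_le p Dn
  have hpL : P ≤ 2 * Dn * (p * L) := by
    have h1 : p < Dn * (L + 1) := by
      rw [hL, mul_comm]
      exact Nat.lt_mul_of_div_lt (Nat.lt_succ_self _) (by omega)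
    have h2 : Dn * (L + 1) ≤ Dn * (2 * L) := Nat.mul_le_mul_left _ (by omega)
    calc P = p * p := rfl
      _ ≤ p * (Dn * (2 * L)) := Nat.mul_le_mul_left _ (by omega)
      _ = 2 * Dn * (p * L) := by ring
  -- the number of cut gates
  have hcard : Z'.card ≤ k + E + T.card + T2.card := by
    have h1 : Z'.card ≤ (Z ∪ T).card + T2.card := card_union_le _ _
    have h2 : (Z ∪ T).card ≤ Z.card + T.card := card_union_le _ _
    omega
  have hc1 : 640 * (k * Dn) ≤ P := by
    calc 640 * (k * Dn) = 640 * k * Dn := by ring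
      _ ≤ 640 * k * Fm B 1 θ := Nat.mul_le_mul_left _ hDnR
      _ ≤ P := hR2
  have hc2 : 128 * (Dn * E) ≤ P := by
    have h1 : d * (128 * (Dn * E)) ≤ d * P := by
      calc d * (128 * (Dn * E)) = 128 * d * Dn * E := by ring
        _ ≤ 128 * d * Fm B 1 θ * E := Nat.mul_le_mul_right _ (Nat.mul_le_mul_left _ hDnR)
        _ ≤ e * P := hE2
        _ ≤ d * P := Nat.mul_le_mul_right _ (by omega)
    exact Nat.le_of_mul_le_mul_left h1 (by omega)
  have hB6 : 128 * c' ≤ B := by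
    have : c' ≤ c' * d := Nat.le_mul_of_pos_right _ hd
    omega
  have hc3 : 128 * (Dn * T.card) ≤ P := by
    have h1 : B ^ 2 * y i * Dn * T.card ≤ y i * (c' * P) := by
      calc B ^ 2 * y i * Dn * T.card = y (i + 1) * T.card := by rw [hsucc]
        _ ≤ θ * Wr := hTc
        _ ≤ y i * (c' * P) := Nat.mul_le_mul hyθ hW
    have h2 : y i * (B ^ 2 * (Dn * T.card)) ≤ y i * (c' * P) := by
      calc y i * (B ^ 2 * (Dn * T.card)) = B ^ 2 * y i * Dn * T.card := by ring
        _ ≤ _ := h1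
    have h3 : B ^ 2 * (Dn * T.card) ≤ c' * P := Nat.le_of_mul_le_mul_left h2 (by omega)
    have h4 : c' * (128 * (Dn * T.card)) ≤ c' * P := by
      calc c' * (128 * (Dn * T.card)) = 128 * c' * (Dn * T.card) := by ring
        _ ≤ B ^ 2 * (Dn * T.card) := by
          refine Nat.mul_le_mul_right _ (hB6.trans ?_)
          rw [sq]
          exact Nat.le_mul_of_pos_left _ hB0
        _ ≤ c' * P := h3
    exact Nat.le_of_mul_le_mul_left h4 (by omega)
  have hc4 : 128 * (Dn * T2.card) ≤ P := by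
    have h1 : B ^ 2 * y i * Dn * T2.card ≤ B * (c' * P) := by
      calc B ^ 2 * y i * Dn * T2.card = y (i + 1) * T2.card := by rw [hsucc]
        _ ≤ B * Wr := hT2c
        _ ≤ B * (c' * P) := Nat.mul_le_mul_left _ hW
    have h2 : B * (B * (y i * (Dn * T2.card))) ≤ B * (c' * P) := by
      calc B * (B * (y i * (Dn * T2.card))) = B ^ 2 * y i * Dn * T2.card := by ring
        _ ≤ _ := h1
    have h3 : B * (y i * (Dn * T2.card)) ≤ c' * P := Nat.le_of_mul_le_mul_left h2 (by omega)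
    have h4 : c' * (128 * (Dn * T2.card)) ≤ c' * P := by
      calc c' * (128 * (Dn * T2.card)) = 128 * c' * (Dn * T2.card) := by ring
        _ ≤ B * (y i * (Dn * T2.card)) :=
          Nat.mul_le_mul hB6 (Nat.le_mul_of_pos_left _ hy1)
        _ ≤ c' * P := h3
    exact Nat.le_of_mul_le_mul_left h4 (by omega)
  have hZc : 16 * (Z'.card + 2 * k + 2) ≤ p * L := by
    have h1 : 32 * Dn * (Z'.card + 2 * k + 2) ≤ P := by
      have h2 : 32 * Dn * (Z'.card + 2 * k + 2) ≤
          32 * Dn * (5 * k + E + T.card + T2.card) := Nat.mul_le_mul_left _ (by omega)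
      have h3 : 32 * Dn * (5 * k + E + T.card + T2.card) =
          160 * (k * Dn) + 32 * (Dn * E) + 32 * (Dn * T.card) + 32 * (Dn * T2.card) := by ring
      omega
    have h4 : 2 * Dn * (16 * (Z'.card + 2 * k + 2)) ≤ 2 * Dn * (p * L) := by
      calc 2 * Dn * (16 * (Z'.card + 2 * k + 2)) = 32 * Dn * (Z'.card + 2 * k + 2) := by ring
        _ ≤ P := h1
        _ ≤ 2 * Dn * (p * L) := hpL
    exact Nat.le_of_mul_le_mul_left h4 (by omega)
  have hDelc : 64 * (Del ∪ D').card ≤ P := by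
    have h1 : (Del ∪ D').card ≤ Del.card + D'.card := card_union_le _ _
    have h2 : 128 * d * D'.card ≤ P := (Nat.mul_le_mul_left _ hD'c).trans hMi
    have h3 : d * (128 * (Del ∪ D').card) ≤ d * P := by
      calc d * (128 * (Del ∪ D').card) ≤ d * (128 * (Del.card + D'.card)) :=
            Nat.mul_le_mul_left _ (Nat.mul_le_mul_left _ h1)
        _ = 128 * d * Del.card + 128 * d * D'.card := by ring
        _ ≤ e * P + P := Nat.add_le_add hDel h2
        _ = (e + 1) * P := by ring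
        _ ≤ d * P := Nat.mul_le_mul_right _ (by omega)
    have h4 := Nat.le_of_mul_le_mul_left h3 (by omega)
    omega
  refine rhs_bound C K X hp hone B (y i) (y (i + 1)) hB0 hyB (hθ.trans hyθ) ?_ hNi Z' (Del ∪ D') L
    ?_ (fun h hX hBg => hZZ' (hXZ h hX hBg)) hDelc hL1 ?_ hZc hDL ?_
  · calc 20 * (Q * C.wires K) ≤ 20 * (Q * (c' * P)) :=
          Nat.mul_le_mul_left _ (Nat.mul_le_mul_left _ hW)
      _ = 20 * Q * c' * P := by ring
      _ ≤ B * P := by
          refine Nat.mul_le_mul_right _ (le_trans ?_ hB2)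
          exact Nat.mul_le_mul_left _ (Nat.le_mul_of_pos_right _ hd)
  · intro g hg
    rcases mem_union.1 hg with hg | hg
    · rcases mem_union.1 hg with hg | hg
      · exact hZ g hg
      · exact hTB g hg
    · exact ((mem_shr C K).1 (mem_filter.1 hg).1).1.1
  · calc a * L ≤ Dn * L := by
          refine Nat.mul_le_mul_right _ (hB4.trans (hyB.trans ?_))
          rw [← hyDn]
          exact Nat.le_mul_of_pos_left _ hy1
      _ ≤ p := hDL
  · intro h hBg hnZ' hSh
    have hX : h ∉ X := fun hx => hnZ' (hZZ' (hXZ h hx hBg))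
    by_cases hl : lev h < e + 1
    · left
      have h1 := hbd Z' hZZ' hTZ' h hBg hnZ' hSh hl
      rw [sq]
      exact Nat.mul_le_mul hyB h1
    · have hle : B * leaf C K X h ≤ y (i + 1) := by
        by_contra hc'
        exact hnZ' (hT2Z' (mem_filter.2 ⟨(mem_shr C K).2 ⟨⟨hBg, hX⟩, hSh⟩, Nat.lt_of_not_le hc'⟩))
      by_cases hlt : y i < B * leaf C K X h
      · exact Or.inr ⟨hlt, hle⟩
      · left
        have hld : lev h < d := hlev.2 h hBg hX hSh
        have h2 := bd_le_leaf C K X Z' (Del ∪ D') hlev (fun g hX hBg => hZZ' (hXZ g hX hBg)) (e + 1)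
          (y i) (hθ.trans hyθ) (fun g h3 h4 h5 h6 => hbd Z' hZZ' hTZ' g h3 h4 h5 h6) h hBg (by omega)
        calc B * bd C K Z' (Del ∪ D') h ≤ B * (y i * leaf C K X h) := Nat.mul_le_mul_left _ h2
          _ = y i * (B * leaf C K X h) := by ring
          _ ≤ y i * y i := Nat.mul_le_mul_left _ (by omega)
          _ = y i ^ 2 := (sq _).symm

end Pool.Agent.Lib_MP_22d2c8_lv
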