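import Pool.Agent.Lib_MP_22d2c8_lv.Mass

/-!
# Cutting large gates and deleting the variables below the middle gates
-/

set_option linter.unusedSectionVars false

namespace Pool.Agent.Lib_MP_22d2c8_lv

open Finset Pool.Agent.Lib_MP_22d2c8_sym Pool.Agent.Lib_MP_22d2c8_ol Pool.Agent.Lib_MP_22d2c8_oa

variable {W U : Type} [DecidableEq W] (C : Circuit (W ⊕ U)) (K : ℕ)

open Classical in
/-- The shared gates outside `Z` of level at most `l`. -/
noncomputable def low (Z : Finset C.Gate) (lev : C.Gate → ℕ) (l : ℕ) : Finset C.Gate :=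
  univ.filter fun h => (C.Big K h ∧ h ∉ Z ∧ lev h < l + 1) ∧ C.Shared K h

theorem mem_low {Z : Finset C.Gate} {lev : C.Gate → ℕ} {l : ℕ} {h : C.Gate} :
    h ∈ low C K Z lev l ↔ (C.Big K h ∧ h ∉ Z ∧ lev h < l + 1) ∧ C.Shared K h := by
  classical
  unfold low
  rw [mem_filter]
  exact ⟨fun h => h.2, fun h => ⟨mem_univ _, h⟩⟩

theorem mass_low {X : Finset C.Gate} {d : ℕ} {lev : C.Gate → ℕ} (hlev : C.IsLev K X d lev)
    (Z : Finset C.Gate) (Del : Finset W) (hXZ : ∀ h ∈ X, C.Big K h → h ∈ Z) (l θ : ℕ)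
    (hθ : max K 1 ≤ θ)
    (hb : ∀ h, C.Big K h → h ∉ Z → C.Shared K h → lev h < l → bd C K Z Del h ≤ θ) :
    ∑ h ∈ low C K Z lev l, bd C K Z Del h ≤ θ * C.wires K := by
  classical
  have hmass := mass_bd C K X Z Del hlev hXZ (l + 1) θ hθ
    (fun h h1 h2 h3 h4 => hb h h1 h2 h3 (by omega))
  refine le_trans (le_of_eq ?_) hmass
  unfold low
  congr!

open Classical in
/-- The wires from different gates to big gates are different. -/
theorem sum_fo_le (H : Finset C.Gate) : ∑ h ∈ H, fo C K h ≤ C.wires K := by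
  have h1 : (univ.filter fun q : (g : C.Gate) × Fin (C.arity g) => C.Big K q.1) =
      (univ.filter fun g => C.Big K g).sigma fun g => (univ : Finset (Fin (C.arity g))) := by
    ext q
    simp
  have h2 : (univ.filter fun q : (g : C.Gate) × Fin (C.arity g) => C.Big K q.1).card =
      C.wires K := by
    rw [h1, card_sigma, Circuit.wires]
    simp only [card_univ, Fintype.card_fin]
  rw [← h2]
  unfold fo
  rw [← card_biUnion]
  · refine card_le_card ?_
    intro q hq
    rw [mem_biUnion] at hq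
    obtain ⟨h, -, hh⟩ := hq
    rw [mem_filter] at hh ⊢
    exact ⟨mem_univ _, hh.2.1⟩
  · intro a _ b _ hab
    rw [Function.onFun, disjoint_left]
    intro q hqa hqb
    rw [mem_filter] at hqa hqb
    exact hab (Sum.inr_injective (hqa.2.2.symm.trans hqb.2.2))

/-- Cut the gates with more than `y'` variables below, delete the variables below those with more
than `y` of them. -/
theorem cutdel {X : Finset C.Gate} {d : ℕ} {lev : C.Gate → ℕ} (hlev : C.IsLev K X d lev)
    (Z : Finset C.Gate) (Del : Finset W) (hXZ : ∀ h ∈ X, C.Big K h → h ∈ Z) (l θ : ℕ)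
    (hθ : max K 1 ≤ θ)
    (hb : ∀ h, C.Big K h → h ∉ Z → C.Shared K h → lev h < l → bd C K Z Del h ≤ θ) (y y' : ℕ) :
    ∃ (T : Finset C.Gate) (D' : Finset W), (∀ g ∈ T, C.Big K g) ∧ y' * T.card ≤ θ * C.wires K ∧
      D'.card ≤ ∑ h ∈ (low C K Z lev l).filter
        (fun h => y < bd C K Z Del h ∧ bd C K Z Del h ≤ y'), bd C K Z Del h ∧
      ∀ Z' : Finset C.Gate, Z ⊆ Z' → T ⊆ Z' → ∀ h, C.Big K h → h ∉ Z' → C.Shared K h →
        lev h < l + 1 → bd C K Z' (Del ∪ D') h ≤ y := by
  classical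
  have hmass' := mass_low C K hlev Z Del hXZ l θ hθ hb
  refine ⟨(low C K Z lev l).filter fun h => y' < bd C K Z Del h,
    ((low C K Z lev l).filter fun h => y < bd C K Z Del h ∧ bd C K Z Del h ≤ y').biUnion
      fun h => bel C K Z h \ Del, ?_, ?_, ?_, ?_⟩
  · intro g hg
    exact ((mem_low C K).1 (mem_filter.1 hg).1).1.1
  · calc y' * ((low C K Z lev l).filter fun h => y' < bd C K Z Del h).card
        = ∑ _h ∈ (low C K Z lev l).filter (fun h => y' < bd C K Z Del h), y' := by
          rw [sum_const, smul_eq_mul, mul_comm]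
      _ ≤ ∑ h ∈ (low C K Z lev l).filter (fun h => y' < bd C K Z Del h), bd C K Z Del h :=
          sum_le_sum fun h hh => (mem_filter.1 hh).2.le
      _ ≤ ∑ h ∈ low C K Z lev l, bd C K Z Del h := sum_le_sum_of_subset (filter_subset _ _)
      _ ≤ θ * C.wires K := hmass'
  · exact card_biUnion_le
  · intro Z' hZ hT h hB hZ' hS hl
    have hnZ : h ∉ Z := fun h1 => hZ' (hZ h1)
    have hlow : h ∈ low C K Z lev l := (mem_low C K).2 ⟨⟨hB, hnZ, hl⟩, hS⟩
    have hle : bd C K Z Del h ≤ y' := by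
      by_contra hc
      exact hZ' (hT (mem_filter.2 ⟨hlow, Nat.lt_of_not_le hc⟩))
    by_cases hy : bd C K Z Del h ≤ y
    · exact (bd_anti C K hZ subset_union_left h).trans hy
    · have h0 : bd C K Z' (Del ∪ ((low C K Z lev l).filter fun h => y < bd C K Z Del h ∧
          bd C K Z Del h ≤ y').biUnion fun h => bel C K Z h \ Del) h = 0 := by
        unfold bd
        rw [card_eq_zero, sdiff_eq_empty_iff_subset]
        intro w hw
        have hw1 := bel_anti C K hZ h hw
        by_cases hwD : w ∈ Del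
        · exact mem_union_left _ hwD
        · exact mem_union_right _ (mem_biUnion.2 ⟨h, mem_filter.2 ⟨hlow,
            Nat.lt_of_not_le hy, hle⟩, mem_sdiff.2 ⟨hw1, hwD⟩⟩)
      rw [h0]
      exact Nat.zero_le _

/-- The one scale inequality as a property. -/
def OneSc (k p Q a : ℕ) : Prop :=
  ∀ (Z : Finset C.Gate) (Del : Finset W) (L : ℕ), (∀ g ∈ Z, C.Big K g) →
    64 * Del.card ≤ p * p → 1 ≤ L → a * L ≤ p → 16 * (Z.card + 2 * k + 2) ≤ p * L →
    (p : ℝ) ^ 2 ≤ Q * ((L : ℝ) / p * ((max K 1 * C.wires K : ℕ) : ℝ) +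
      ∑ h ∈ @univ.filter _ (fun h => C.Big K h ∧ h ∉ Z ∧ C.Shared K h) (Classical.decPred _),
        (fo C K h : ℝ) * min 1 ((bd C K Z Del h : ℝ) * L / p))

end Pool.Agent.Lib_MP_22d2c8_lv
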