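import Mathlib

/-!
# The growth of the thresholds

`Fm B j` is the bound for the scale if `j` lower levels have to be treated.
-/

namespace Pool.Agent.Lib_MP_22d2c8_lv

/-- The recursion of the thresholds: `Fm B 0 y = y ^ 2` and `Fm B (j + 1) θ` is the last of the
thresholds `y_0 = max θ B`, `y_(i+1) = B ^ 2 * y_i * Fm B j y_i`, `i < B * θ`. -/
def Fm (B : ℕ) : ℕ → ℕ → ℕ
  | 0, y => y ^ 2
  | j + 1, θ => (fun y => B ^ 2 * y * Fm B j y)^[B * θ] (max θ B)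

/-- `ack m` iterated `i` times is at most `ack (m + 1)`. Induction on `i`:
`ack m (ack (m + 1) (i + x)) = ack (m + 1) (i + x + 1)`; `x ≤ ack (m + 1) x`. -/
theorem ack_iter (m i x : ℕ) : (ack m)^[i] x ≤ ack (m + 1) (i + x) := by
  induction i with
  | zero => simpa using (lt_ack_right (m + 1) x).le
  | succ i ih =>
    rw [Function.iterate_succ_apply']
    have h1 : i + 1 + x = (i + x) + 1 := by ring
    rw [h1, ack_succ_succ]
    exact ack_mono_right m ih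

/-- Iterates of a function that is bounded by a monotone one. -/
theorem iter_le {f g : ℕ → ℕ} (hg : Monotone g) (hg1 : ∀ y, y ≤ g y) {B : ℕ}
    (h : ∀ y, B ≤ y → f y ≤ g y ∧ B ≤ f y) (i x : ℕ) (hx : B ≤ x) :
    f^[i] x ≤ g^[i] x ∧ B ≤ f^[i] x := by
  induction i with
  | zero => exact ⟨le_rfl, hx⟩
  | succ i ih =>
    rw [Function.iterate_succ_apply', Function.iterate_succ_apply']
    exact ⟨(h _ ih.2).1.trans (hg ih.1), (h _ ih.2).2⟩

private theorem g1_pow (N x : ℕ) : (fun y : ℕ => y ^ 5)^[N] x = x ^ (5 ^ N) := by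
  induction N with
  | zero => simp
  | succ N ih =>
    rw [Function.iterate_succ_apply', ih]
    show (x ^ 5 ^ N) ^ 5 = x ^ 5 ^ (N + 1)
    rw [← pow_mul, pow_succ]

/-- [LV-G1] The case of two levels. PROOF: for `y ≥ B ≥ 1`: `B ^ 2 * y * y ^ 2 ≤ y ^ 5`; the `B θ`-fold
iterate of `y ↦ y ^ 5` at `M = max θ B` is `M ^ (5 ^ (B θ)) ≤ 2 ^ (M * 8 ^ (B θ)) ≤
2 ^ (2 ^ (M + 3 B θ))`. -/
theorem Fm_one (B θ : ℕ) (hB : 1 ≤ B) (hθ : 1 ≤ θ) : Fm B 1 θ ≤ 2 ^ (2 ^ (4 * B * θ)) := by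
  have h1 : Fm B 1 θ = (fun y => B ^ 2 * y * y ^ 2)^[B * θ] (max θ B) := rfl
  rw [h1]
  have h2 := (iter_le (f := fun y => B ^ 2 * y * y ^ 2) (g := fun y : ℕ => y ^ 5) (B := B)
    (fun a b hab => Nat.pow_le_pow_left hab 5)
    (fun y => Nat.le_self_pow (by norm_num) y)
    (fun y hy => by
      constructor
      · calc B ^ 2 * y * y ^ 2 ≤ y ^ 2 * y * y ^ 2 :=
              Nat.mul_le_mul_right _ (Nat.mul_le_mul_right _ (Nat.pow_le_pow_left hy 2))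
          _ = y ^ 5 := by ring
      · have hy1 : 1 ≤ y := hB.trans hy
        calc B ≤ B ^ 2 := Nat.le_self_pow (by norm_num) B
          _ = B ^ 2 * 1 * 1 ^ 2 := by ring
          _ ≤ B ^ 2 * y * y ^ 2 := Nat.mul_le_mul (Nat.mul_le_mul_left _ hy1) (Nat.pow_le_pow_left hy1 2))
    (B * θ) (max θ B) (le_max_right _ _)).1
  refine h2.trans ?_
  rw [g1_pow]
  set N := B * θ with hN
  have hM : max θ B ≤ N := by
    apply max_le
    · calc θ = 1 * θ := (one_mul θ).symm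
        _ ≤ B * θ := Nat.mul_le_mul_right _ hB
    · calc B = B * 1 := (mul_one B).symm
        _ ≤ B * θ := Nat.mul_le_mul_left _ hθ
  have h3 : max θ B ≤ 2 ^ N := hM.trans (Nat.lt_two_pow_self).le
  have h4 : N * 5 ^ N ≤ 2 ^ (4 * B * θ) := by
    have h5 : 2 ^ (4 * B * θ) = 16 ^ N := by
      rw [mul_assoc, ← hN, pow_mul]
      norm_num
    have h6 : N ≤ 3 ^ N := (Nat.lt_pow_self (by norm_num)).le
    rw [h5]
    calc N * 5 ^ N ≤ 3 ^ N * 5 ^ N := Nat.mul_le_mul_right _ h6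
      _ = 15 ^ N := by rw [← mul_pow]; norm_num
      _ ≤ 16 ^ N := Nat.pow_le_pow_left (by norm_num) N
  calc max θ B ^ 5 ^ N ≤ (2 ^ N) ^ 5 ^ N := Nat.pow_le_pow_left h3 _
    _ = 2 ^ (N * 5 ^ N) := by rw [← pow_mul]
    _ ≤ 2 ^ 2 ^ (4 * B * θ) := Nat.pow_le_pow_right (by norm_num) h4

private theorem g2_iter_ge {f : ℕ → ℕ} {B : ℕ} (h : ∀ y, B ≤ y → B ≤ f y) (i x : ℕ) (hx : B ≤ x) :
    B ≤ f^[i] x := by
  induction i with
  | zero => exact hx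
  | succ i ih =>
    rw [Function.iterate_succ_apply']
    exact h _ ih

private theorem g2_ge_of_pos {B y F : ℕ} (hB : 1 ≤ B) (hy : 1 ≤ y) (hF : 1 ≤ F) :
    B ≤ B ^ 2 * y * F := by
  calc B ≤ B ^ 2 := Nat.le_self_pow (by norm_num) B
    _ = B ^ 2 * 1 * 1 := by ring
    _ ≤ B ^ 2 * y * F := Nat.mul_le_mul (Nat.mul_le_mul_left _ hy) hF

private theorem g2_pos (B : ℕ) (hB : 1 ≤ B) : ∀ j y : ℕ, 1 ≤ y → 1 ≤ Fm B j y
  | 0, y, hy => Nat.one_le_pow _ _ hy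
  | j + 1, θ, _ => by
    have h : ∀ y, B ≤ y → B ≤ B ^ 2 * y * Fm B j y := fun y hy =>
      g2_ge_of_pos hB (hB.trans hy) (g2_pos B hB j y (hB.trans hy))
    exact hB.trans (g2_iter_ge h (B * θ) (max θ B) (le_max_right _ _))

private theorem g2_double (d x : ℕ) (hd : 2 ≤ d) : 2 * ack (d + 1) x ≤ ack (d + 1) (x + 1) := by
  rw [ack_succ_succ]
  have h1 : ack 2 (ack (d + 1) x) ≤ ack d (ack (d + 1) x) := ack_mono_left _ hd
  rw [ack_two] at h1
  omega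

private theorem g2_pow_mul (d x n : ℕ) (hd : 2 ≤ d) :
    2 ^ n * ack (d + 1) x ≤ ack (d + 1) (x + n) := by
  induction n with
  | zero => simp
  | succ n ih =>
    calc 2 ^ (n + 1) * ack (d + 1) x = 2 * (2 ^ n * ack (d + 1) x) := by rw [pow_succ]; ring
      _ ≤ 2 * ack (d + 1) (x + n) := Nat.mul_le_mul_left _ ih
      _ ≤ ack (d + 1) (x + n + 1) := g2_double d (x + n) hd

private theorem g2_lower (d y : ℕ) (hd : 3 ≤ d) (hy : 1 ≤ y) : 5 * y ^ 2 + y ^ 3 ≤ ack (d + 1) y := by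
  have h0 : ack 4 y ≤ ack (d + 1) y := ack_mono_left _ (by omega)
  refine le_trans ?_ h0
  obtain ⟨x, rfl⟩ : ∃ x, y = x + 1 := ⟨y - 1, by omega⟩
  have h1 : ack 4 (x + 1) = 2 ^ (ack 4 x + 3) - 3 := by
    rw [ack_succ_succ, ack_three]
  have h2 : ack 3 x ≤ ack 4 x := ack_mono_left _ (by omega)
  rw [ack_three] at h2
  have h3 : 2 ^ (x + 3) ≤ ack 4 x + 3 := by omega
  have h4 : x + 1 ≤ 2 ^ x := Nat.lt_two_pow_self
  have h5 : 8 * (x + 1) ≤ ack 4 x + 3 := by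
    rw [pow_add] at h3
    omega
  have h6 : 2 ^ (8 * (x + 1)) ≤ 2 ^ (ack 4 x + 3) := Nat.pow_le_pow_right (by norm_num) h5
  have h7 : 2 ^ (8 * (x + 1)) = (2 ^ (x + 1)) ^ 3 * (2 ^ (x + 1)) ^ 5 := by
    rw [← pow_add, ← pow_mul]
    congr 1
    ring
  have h8 : x + 1 ≤ 2 ^ (x + 1) := (Nat.lt_two_pow_self).le
  have h9 : 2 ≤ 2 ^ (x + 1) := by
    calc 2 = 2 ^ 1 := by norm_num
      _ ≤ 2 ^ (x + 1) := Nat.pow_le_pow_right (by norm_num) (by omega)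
  generalize 2 ^ (x + 1) = Y at h7 h8 h9
  generalize x + 1 = z at h6 h7 h8 h1 ⊢
  have e1 : z ^ 2 ≤ Y ^ 3 := (Nat.pow_le_pow_left h8 2).trans (Nat.pow_le_pow_right (by omega) (by norm_num))
  have e2 : z ^ 3 ≤ Y ^ 3 := Nat.pow_le_pow_left h8 3
  have e3 : 32 ≤ Y ^ 5 := by
    calc 32 = 2 ^ 5 := by norm_num
      _ ≤ Y ^ 5 := Nat.pow_le_pow_left h9 5
  have e4 : 1 ≤ Y ^ 3 := Nat.one_le_pow _ _ (by omega)
  have e5 : Y ^ 3 * 32 ≤ Y ^ 3 * Y ^ 5 := Nat.mul_le_mul_left _ e3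
  rw [h1]
  omega

private theorem g2_step (d y : ℕ) (hd : 3 ≤ d) (hy : 1 ≤ y) :
    y ^ 3 * ack (d + 1) (5 * y ^ 2) ≤ ack (d + 1) (ack (d + 1) y) := by
  calc y ^ 3 * ack (d + 1) (5 * y ^ 2) ≤ 2 ^ (y ^ 3) * ack (d + 1) (5 * y ^ 2) :=
        Nat.mul_le_mul_right _ (Nat.lt_two_pow_self).le
    _ ≤ ack (d + 1) (5 * y ^ 2 + y ^ 3) := g2_pow_mul d _ _ (by omega)
    _ ≤ ack (d + 1) (ack (d + 1) y) := ack_mono_right _ (g2_lower d y hd hy)

private theorem g2_three (y : ℕ) : 2 ^ (y + 2) ≤ ack 3 y := by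
  rw [ack_three]
  have h1 : 2 ^ (y + 3) = 2 * 2 ^ (y + 2) := by rw [pow_succ]; ring
  have h2 : 4 ≤ 2 ^ (y + 2) := by
    calc 4 = 2 ^ 2 := by norm_num
      _ ≤ 2 ^ (y + 2) := Nat.pow_le_pow_right (by norm_num) (by omega)
  omega

private theorem g2_base (y : ℕ) : y ^ 3 * 2 ^ 2 ^ (4 * y ^ 2) ≤ (ack 3)^[4] y := by
  have h0 : (ack 3)^[4] y = ack 3 (ack 3 (ack 3 (ack 3 y))) := rfl
  rw [h0]
  set a1 := ack 3 y
  have h1 : 4 * (y + 1) ≤ a1 := by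
    refine le_trans ?_ (g2_three y)
    have : y + 1 ≤ 2 ^ y := Nat.lt_two_pow_self
    rw [pow_add]
    omega
  set a2 := ack 3 a1
  have h2 : 4 * y ^ 2 ≤ a2 := by
    refine le_trans ?_ (g2_three a1)
    calc 4 * y ^ 2 ≤ 4 * (2 ^ y) ^ 2 := Nat.mul_le_mul_left _ (Nat.pow_le_pow_left (Nat.lt_two_pow_self).le 2)
      _ = 2 ^ (2 * y + 2) := by rw [← pow_mul, pow_add, mul_comm y 2]; ring
      _ ≤ 2 ^ (a1 + 2) := Nat.pow_le_pow_right (by norm_num) (by omega)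
  set t := 4 * y ^ 2 with ht
  set a3 := ack 3 a2
  have h3 : 4 * 2 ^ t ≤ a3 := by
    refine le_trans ?_ (g2_three a2)
    rw [pow_add, mul_comm]
    exact Nat.mul_le_mul_right _ (Nat.pow_le_pow_right (by norm_num) h2)
  have h4 : y ≤ 2 ^ t := by
    have h5 : y ≤ t := by
      rw [ht]
      calc y ≤ y ^ 2 := Nat.le_self_pow (by norm_num) y
        _ ≤ 4 * y ^ 2 := by omega
    exact h5.trans (Nat.lt_two_pow_self).le
  calc y ^ 3 * 2 ^ 2 ^ t ≤ (2 ^ y) ^ 3 * 2 ^ 2 ^ t :=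
        Nat.mul_le_mul_right _ (Nat.pow_le_pow_left (Nat.lt_two_pow_self).le 3)
    _ = 2 ^ (y * 3 + 2 ^ t) := by rw [← pow_mul, ← pow_add]
    _ ≤ 2 ^ (a3 + 2) := Nat.pow_le_pow_right (by norm_num) (by omega)
    _ ≤ ack 3 a3 := g2_three a3

/-- [LV-G2] Three levels and more. PROOF: induction on `j`.
`Fm B 2`: for `y ≥ B` the function `y ↦ B ^ 2 * y * Fm B 1 y ≤ y ^ 3 * 2 ^ (2 ^ (4 * y ^ 2)) ≤
(ack 3)^[4] y` (`ack 3 y = 2 ^ (y + 3) - 3`), so `Fm B 2 θ ≤ (ack 3)^[4 B θ] (max θ B) ≤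
ack 4 (4 B θ + max θ B) ≤ ack 4 (5 B θ)` by `ack_iter`.
Step: with `A = ack (j + 2)`, `j ≥ 2`, for `y ≥ B`: `B ^ 2 * y * Fm B j y ≤ y ^ 3 * A (5 y ^ 2) ≤
A (5 y ^ 2 + y ^ 3) ≤ A (A y)` (`2 * A x ≤ A (x + 1)`), so `Fm B (j+1) θ ≤ A^[2 B θ] (max θ B) ≤
ack (j + 3) (3 B θ)`. -/
theorem Fm_ack (B : ℕ) (hB : 2 ≤ B) (j θ : ℕ) (hj : 2 ≤ j) (hθ : 1 ≤ θ) :
    Fm B j θ ≤ ack (j + 2) (5 * B * θ) := by
  have hB1 : 1 ≤ B := by omega
  induction j, hj using Nat.le_induction generalizing θ with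
  | base =>
    have h1 : Fm B 2 θ = (fun y => B ^ 2 * y * Fm B 1 y)^[B * θ] (max θ B) := rfl
    have hM : max θ B ≤ B * θ := max_le (Nat.le_mul_of_pos_left _ (by omega)) (Nat.le_mul_of_pos_right _ (by omega))
    have hmono : Monotone ((ack 3)^[4]) := (ack_mono_right 3).iterate 4
    have hge : ∀ y, y ≤ (ack 3)^[4] y := fun y => by
      have h0 : (ack 3)^[4] y = ack 3 (ack 3 (ack 3 (ack 3 y))) := rfl
      rw [h0]
      exact (lt_ack_right 3 y).le.trans ((lt_ack_right 3 _).le.trans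
        ((lt_ack_right 3 _).le.trans (lt_ack_right 3 _).le))
    have h2 := (iter_le (f := fun y => B ^ 2 * y * Fm B 1 y) (g := (ack 3)^[4]) (B := B)
      hmono hge (fun y hy => by
        have hy1 : 1 ≤ y := hB1.trans hy
        constructor
        · calc B ^ 2 * y * Fm B 1 y ≤ y ^ 2 * y * 2 ^ 2 ^ (4 * y ^ 2) := by
                refine Nat.mul_le_mul (Nat.mul_le_mul_right _ (Nat.pow_le_pow_left hy 2)) ?_
                refine (Fm_one B y hB1 hy1).trans (Nat.pow_le_pow_right (by norm_num)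
                  (Nat.pow_le_pow_right (by norm_num) ?_))
                calc 4 * B * y ≤ 4 * y * y := Nat.mul_le_mul_right _ (Nat.mul_le_mul_left _ hy)
                  _ = 4 * y ^ 2 := by ring
            _ = y ^ 3 * 2 ^ 2 ^ (4 * y ^ 2) := by ring
            _ ≤ (ack 3)^[4] y := g2_base y
        · exact g2_ge_of_pos hB1 hy1 (g2_pos B hB1 1 y hy1))
      (B * θ) (max θ B) (le_max_right _ _)).1
    rw [h1]
    refine h2.trans ?_
    rw [← Function.iterate_mul]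
    refine (ack_iter 3 (4 * (B * θ)) (max θ B)).trans ?_
    refine ack_mono_right _ ?_
    calc 4 * (B * θ) + max θ B ≤ 4 * (B * θ) + B * θ := Nat.add_le_add_left hM _
      _ = 5 * B * θ := by ring
  | succ j hj ih =>
    have h1 : Fm B (j + 1) θ = (fun y => B ^ 2 * y * Fm B j y)^[B * θ] (max θ B) := rfl
    have hM : max θ B ≤ B * θ := max_le (Nat.le_mul_of_pos_left _ (by omega)) (Nat.le_mul_of_pos_right _ (by omega))
    have hmono : Monotone ((ack (j + 2))^[2]) := (ack_mono_right (j + 2)).iterate 2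
    have hge : ∀ y, y ≤ (ack (j + 2))^[2] y := fun y =>
      (lt_ack_right (j + 2) y).le.trans (lt_ack_right (j + 2) _).le
    have h2 := (iter_le (f := fun y => B ^ 2 * y * Fm B j y) (g := (ack (j + 2))^[2]) (B := B)
      hmono hge (fun y hy => by
        have hy1 : 1 ≤ y := hB1.trans hy
        constructor
        · calc B ^ 2 * y * Fm B j y ≤ y ^ 2 * y * ack (j + 2) (5 * y ^ 2) := by
                refine Nat.mul_le_mul (Nat.mul_le_mul_right _ (Nat.pow_le_pow_left hy 2)) ?_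
                refine (ih y hy1).trans (ack_mono_right _ ?_)
                calc 5 * B * y ≤ 5 * y * y := Nat.mul_le_mul_right _ (Nat.mul_le_mul_left _ hy)
                  _ = 5 * y ^ 2 := by ring
            _ = y ^ 3 * ack (j + 1 + 1) (5 * y ^ 2) := by ring_nf
            _ ≤ (ack (j + 2))^[2] y := g2_step (j + 1) y (by omega) hy1
        · exact g2_ge_of_pos hB1 hy1 (g2_pos B hB1 j y hy1))
      (B * θ) (max θ B) (le_max_right _ _)).1
    rw [h1]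
    refine h2.trans ?_
    rw [← Function.iterate_mul]
    refine (ack_iter (j + 2) (2 * (B * θ)) (max θ B)).trans ?_
    refine ack_mono_right _ ?_
    calc 2 * (B * θ) + max θ B ≤ 2 * (B * θ) + B * θ := Nat.add_le_add_left hM _
      _ = 3 * (B * θ) := by ring
      _ ≤ 5 * (B * θ) := Nat.mul_le_mul_right _ (by norm_num)
      _ = 5 * B * θ := by ring

private theorem g3_step (d x : ℕ) (hd : 3 ≤ d) : 2 ^ (ack (d + 1) x + 3) ≤ ack (d + 1) (x + 1) + 3 := by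
  rw [ack_succ_succ]
  have h1 : ack 3 (ack (d + 1) x) ≤ ack d (ack (d + 1) x) := ack_mono_left _ hd
  rw [ack_three] at h1
  omega

private theorem g3_base (d x : ℕ) (hd : 3 ≤ d) : 13 ≤ ack (d + 1) x := by
  have h1 : ack 4 0 ≤ ack (d + 1) x := ack_le_ack (by omega) (Nat.zero_le _)
  have h2 : ack 4 0 = 13 := by
    rw [ack_succ_zero, ack_three]
    norm_num
  rwa [h2] at h1

private theorem g3_num {a b c : ℕ} (ha : 13 ≤ a) (h1 : 2 ^ (a + 3) ≤ b + 3) (h2 : 2 ^ (b + 3) ≤ c + 3) :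
    5120 * a ^ 2 ≤ c := by
  have h3 : a < 2 ^ a := Nat.lt_two_pow_self
  have h4 : 8 * a + 8 ≤ b + 3 := by
    rw [pow_add] at h1
    omega
  have h5 : 2 ^ (8 * a + 8) ≤ c + 3 := (Nat.pow_le_pow_right (by norm_num) h4).trans h2
  have h6 : a ^ 2 ≤ 2 ^ (2 * a) := by
    calc a ^ 2 ≤ (2 ^ a) ^ 2 := Nat.pow_le_pow_left h3.le 2
      _ = 2 ^ (2 * a) := by rw [← pow_mul, mul_comm]
  have h7 : 5120 ≤ 2 ^ a := by
    calc 5120 ≤ 2 ^ 13 := by norm_num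
      _ ≤ 2 ^ a := Nat.pow_le_pow_right (by norm_num) ha
  have h8 : 5120 * a ^ 2 ≤ 2 ^ (3 * a) := by
    calc 5120 * a ^ 2 ≤ 2 ^ a * 2 ^ (2 * a) := Nat.mul_le_mul h7 h6
      _ = 2 ^ (3 * a) := by rw [← pow_add]; congr 1; ring
  have h9 : 2 ^ (3 * a) * 4 ≤ 2 ^ (8 * a + 8) := by
    calc 2 ^ (3 * a) * 4 = 2 ^ (3 * a + 2) := by rw [pow_add]; norm_num
      _ ≤ 2 ^ (8 * a + 8) := Nat.pow_le_pow_right (by norm_num) (by omega)
  have h10 : 1 ≤ 2 ^ (3 * a) := Nat.one_le_two_pow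
  omega

/-- [LV-G3] PROOF: `A = ack (d + 1)`, `d ≥ 3`: `A (x + 1) ≥ ack 3 (A x) = 2 ^ (A x + 3) - 3`, twice. -/
theorem ack_sq (d x : ℕ) (hd : 3 ≤ d) : 5120 * ack (d + 1) x ^ 2 ≤ ack (d + 1) (x + 2) :=
  g3_num (g3_base d x hd) (g3_step d x hd) (g3_step d (x + 1) hd)

end Pool.Agent.Lib_MP_22d2c8_lv
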