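import Pool.Agent.Lib_MP_22d2c8_lv.OneScale
import Pool.Agent.Lib_MP_22d2c8_sym.Lev

/-!
# The mass of the shared gates of low level, leaves of the trees of unshared gates
-/

set_option linter.unusedSectionVars false

namespace Pool.Agent.Lib_MP_22d2c8_lv

open Finset Pool.Agent.Lib_MP_22d2c8_sym Pool.Agent.Lib_MP_22d2c8_ol Pool.Agent.Lib_MP_22d2c8_oa

variable {W U : Type} [DecidableEq W] (C : Circuit (W ⊕ U)) (K : ℕ)

/-- A subadditive weight on a set of big gates that contains the unshared sources of its members. -/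
theorem mass_gen (G : Finset C.Gate) (hG : ∀ g ∈ G, C.Big K g) (b : C.Gate → ℕ)
    (bs : (W ⊕ U) ⊕ C.Gate → ℕ) (β : ℕ) (h1 : ∀ g ∈ G, b g ≤ ∑ i, bs (C.src g i))
    (h2 : ∀ g ∈ G, ∀ i, bs (C.src g i) ≤ β ∨
      ∃ h ∈ G, C.src g i = Sum.inr h ∧ ¬ C.Shared K h ∧ bs (C.src g i) ≤ b h) :
    ∑ g ∈ @Finset.filter _ (fun g => C.Shared K g) (Classical.decPred _) G, b g ≤
      β * C.wires K := by
  classical
  set P : Finset ((g : C.Gate) × Fin (C.arity g)) := G.sigma fun _ => univ with hP
  set P1 := P.filter fun q => bs (C.src q.1 q.2) ≤ β with hP1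
  set P2 := P.filter fun q => ¬ bs (C.src q.1 q.2) ≤ β with hP2
  have hsum : ∑ g ∈ G, b g ≤ ∑ q ∈ P1, bs (C.src q.1 q.2) + ∑ q ∈ P2, bs (C.src q.1 q.2) := by
    rw [hP1, hP2, sum_filter_add_sum_filter_not, hP, sum_sigma]
    exact sum_le_sum h1
  have hPc : P.card ≤ C.wires K := by
    rw [hP, card_sigma]
    unfold Circuit.wires
    simp only [card_univ, Fintype.card_fin]
    exact sum_le_sum_of_subset fun g hg => mem_filter.2 ⟨mem_univ _, hG g hg⟩
  have hs1 : ∑ q ∈ P1, bs (C.src q.1 q.2) ≤ β * C.wires K := by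
    calc ∑ q ∈ P1, bs (C.src q.1 q.2) ≤ ∑ _q ∈ P1, β := sum_le_sum fun q hq => (mem_filter.1 hq).2
      _ = P1.card * β := by rw [sum_const, smul_eq_mul]
      _ ≤ C.wires K * β := Nat.mul_le_mul_right _ ((card_le_card (filter_subset _ _)).trans hPc)
      _ = β * C.wires K := mul_comm _ _
  have hex : ∀ q ∈ P2, ∃ h ∈ G, C.src q.1 q.2 = Sum.inr h ∧ ¬ C.Shared K h ∧
      bs (C.src q.1 q.2) ≤ b h := by
    intro q hq
    obtain ⟨hq1, hq2⟩ := mem_filter.1 hq
    rw [hP, mem_sigma] at hq1
    exact (h2 q.1 hq1.1 q.2).resolve_left hq2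
  have hs2 : ∑ q ∈ P2, bs (C.src q.1 q.2) ≤ ∑ g ∈ G.filter (fun g => ¬ C.Shared K g), b g := by
    set φ : ((g : C.Gate) × Fin (C.arity g)) → C.Gate := fun q =>
      if hq : q ∈ P2 then (hex q hq).choose else q.1 with hφ
    have hφ1 : ∀ q ∈ P2, φ q ∈ G ∧ C.src q.1 q.2 = Sum.inr (φ q) ∧ ¬ C.Shared K (φ q) ∧
        bs (C.src q.1 q.2) ≤ b (φ q) := by
      intro q hq
      rw [hφ]
      simp only [dif_pos hq]
      exact (hex q hq).choose_spec
    have hinj : ∀ q ∈ P2, ∀ q' ∈ P2, φ q = φ q' → q = q' := by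
      intro q hq q' hq' he
      obtain ⟨a1, a2, a3, -⟩ := hφ1 q hq
      obtain ⟨-, b2, -, -⟩ := hφ1 q' hq'
      rw [← he] at b2
      by_contra hne
      apply a3
      unfold Circuit.Shared
      refine one_lt_card.2 ⟨q, (@Finset.mem_filter _ _ (_) _ _).2 ⟨mem_univ _, ?_, a2⟩, q',
        (@Finset.mem_filter _ _ (_) _ _).2 ⟨mem_univ _, ?_, b2⟩, hne⟩
      · have := (mem_filter.1 hq).1
        rw [hP, mem_sigma] at this
        exact hG _ this.1
      · have := (mem_filter.1 hq').1
        rw [hP, mem_sigma] at this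
        exact hG _ this.1
    calc ∑ q ∈ P2, bs (C.src q.1 q.2) ≤ ∑ q ∈ P2, b (φ q) :=
          sum_le_sum fun q hq => (hφ1 q hq).2.2.2
      _ = ∑ g ∈ P2.image φ, b g := (sum_image fun q hq q' hq' he => hinj q hq q' hq' he).symm
      _ ≤ ∑ g ∈ G.filter (fun g => ¬ C.Shared K g), b g := by
          refine sum_le_sum_of_subset ?_
          intro g hg
          obtain ⟨q, hq, rfl⟩ := mem_image.1 hg
          exact mem_filter.2 ⟨(hφ1 q hq).1, (hφ1 q hq).2.2.1⟩
  have hsplit := sum_filter_add_sum_filter_not G (fun g => C.Shared K g) b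
  have hfin : ∑ g ∈ G.filter (fun g => C.Shared K g), b g ≤ β * C.wires K := by omega
  convert hfin

variable (X Z : Finset C.Gate) (Del : Finset W)

/-- The number of undeleted variables on which a source depends. -/
noncomputable def bds (σ : (W ⊕ U) ⊕ C.Gate) : ℕ := (belS C K Z σ \ Del).card

theorem bd_sub (g : C.Gate) : bd C K Z Del g ≤ ∑ i, bds C K Z Del (C.src g i) := by
  classical
  unfold bd bds
  rw [bel_eq]
  have h1 : (univ.biUnion fun i => belS C K Z (C.src g i)) \ Del ⊆
      univ.biUnion fun i => (belS C K Z (C.src g i)) \ Del := by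
    intro w hw
    rw [mem_sdiff, mem_biUnion] at hw
    obtain ⟨⟨i, hi, hwi⟩, hD⟩ := hw
    exact mem_biUnion.2 ⟨i, hi, mem_sdiff.2 ⟨hwi, hD⟩⟩
  exact (card_le_card h1).trans card_biUnion_le

/-- What a source looks like: cheap, in the cut set, or a big gate outside the cut set. -/
theorem bds_cases (σ : (W ⊕ U) ⊕ C.Gate) : bds C K Z Del σ ≤ max K 1 ∨
    ∃ h, σ = Sum.inr h ∧ C.Big K h ∧ h ∉ Z ∧ bds C K Z Del σ = bd C K Z Del h := by
  classical
  rcases σ with v | h
  · left
    unfold bds
    rw [belS_inl]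
    exact (card_le_card sdiff_subset).trans (lset_card _)
  · by_cases hs : C.Small K h
    · left
      unfold bds
      rw [belS_small hs]
      exact (card_le_card sdiff_subset).trans ((sset_spec hs).1.trans (le_max_left _ _))
    · by_cases hZ : h ∈ Z
      · left
        unfold bds
        rw [belS_mem hs hZ, empty_sdiff, card_empty]
        exact Nat.zero_le _
      · right
        refine ⟨h, rfl, hs, hZ, ?_⟩
        unfold bds bd
        rw [belS_big hs hZ]

/-- The mass of the shared gates of level `< l`, if those of level `< l - 1` have few variables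
below. -/
theorem mass_bd {d : ℕ} {lev : C.Gate → ℕ} (hlev : C.IsLev K X d lev)
    (hXZ : ∀ h ∈ X, C.Big K h → h ∈ Z) (l β : ℕ) (hβ : max K 1 ≤ β)
    (hb : ∀ h, C.Big K h → h ∉ Z → C.Shared K h → lev h + 1 < l → bd C K Z Del h ≤ β) :
    ∑ h ∈ @Finset.filter _ (fun h => (C.Big K h ∧ h ∉ Z ∧ lev h < l) ∧ C.Shared K h)
      (Classical.decPred _) univ, bd C K Z Del h ≤ β * C.wires K := by
  classical
  set G : Finset C.Gate := univ.filter fun h => C.Big K h ∧ h ∉ Z ∧ lev h < l with hG
  have h0 := mass_gen C K G (fun g hg => (mem_filter.1 hg).2.1) (bd C K Z Del) (bds C K Z Del) β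
    (fun g _ => bd_sub C K Z Del g)
    (by
      intro g hg i
      obtain ⟨-, hgB, hgZ, hgl⟩ := mem_filter.1 hg
      rcases bds_cases C K Z Del (C.src g i) with h | ⟨h, hσ, hB, hZ, he⟩
      · exact Or.inl (h.trans hβ)
      · have hX : h ∉ X := fun hx => hZ (hXZ h hx hB)
        obtain ⟨hle, hlt⟩ := hlev.1 g i h hgB hB hX hσ
        by_cases hsh : C.Shared K h
        · left
          rw [he]
          have := hlt hsh
          exact hb h hB hZ hsh (by omega)
        · right
          exact ⟨h, mem_filter.2 ⟨mem_univ _, hB, hZ, by omega⟩, hσ, hsh, he.le⟩)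
  refine le_trans (le_of_eq ?_) h0
  rw [hG, filter_filter]
  congr!

open Classical in
/-- The number of leaves of the tree of unshared gates below a gate; the leaves are the variables,
the small gates, the gates in `X` and the shared gates. -/
noncomputable def leaf : C.Gate → ℕ :=
  C.fold (fun _ => 1) (fun h b => if C.Small K h ∨ h ∈ X ∨ C.Shared K h then 1 else b)
    fun _ F => ∑ i, F i

open Classical in
/-- The same for a source. -/
noncomputable def leafS (σ : (W ⊕ U) ⊕ C.Gate) : ℕ :=
  C.look (fun _ => 1) (fun h b => if C.Small K h ∨ h ∈ X ∨ C.Shared K h then 1 else b)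
    (leaf C K X) σ

theorem leaf_eq (g : C.Gate) : leaf C K X g = ∑ i, leafS C K X (C.src g i) := by
  unfold leaf
  rw [Circuit.fold_eq]
  rfl

theorem leafS_cases (σ : (W ⊕ U) ⊕ C.Gate) : leafS C K X σ = 1 ∨
    ∃ h, σ = Sum.inr h ∧ C.Big K h ∧ h ∉ X ∧ ¬ C.Shared K h ∧ leafS C K X σ = leaf C K X h := by
  classical
  rcases σ with v | h
  · exact Or.inl rfl
  · unfold leafS Circuit.look
    simp only
    by_cases hc : C.Small K h ∨ h ∈ X ∨ C.Shared K h
    · rw [if_pos hc]
      exact Or.inl rfl
    · rw [if_neg hc]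
      push Not at hc
      exact Or.inr ⟨h, rfl, hc.1, hc.2.1, hc.2.2, rfl⟩

theorem mass_leaf : ∑ h ∈ @Finset.filter _ (fun h => (C.Big K h ∧ h ∉ X) ∧ C.Shared K h)
      (Classical.decPred _) univ, leaf C K X h ≤ C.wires K := by
  classical
  set G : Finset C.Gate := univ.filter fun h => C.Big K h ∧ h ∉ X with hG
  have h0 := mass_gen C K G (fun g hg => (mem_filter.1 hg).2.1) (leaf C K X) (leafS C K X) 1
    (fun g _ => (leaf_eq C K X g).le)
    (by
      intro g hg i
      rcases leafS_cases C K X (C.src g i) with h | ⟨h, hσ, hB, hX, hsh, he⟩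
      · exact Or.inl h.le
      · exact Or.inr ⟨h, mem_filter.2 ⟨mem_univ _, hB, hX⟩, hσ, hsh, he.le⟩)
  rw [one_mul] at h0
  refine le_trans (le_of_eq ?_) h0
  rw [hG, filter_filter]
  congr!

/-- The number of undeleted variables below a gate is at most `β` times the number of leaves. -/
theorem bd_le_leaf {d : ℕ} {lev : C.Gate → ℕ} (hlev : C.IsLev K X d lev)
    (hXZ : ∀ h ∈ X, C.Big K h → h ∈ Z) (l β : ℕ) (hβ : max K 1 ≤ β)
    (hb : ∀ h, C.Big K h → h ∉ Z → C.Shared K h → lev h < l → bd C K Z Del h ≤ β)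
    (g : C.Gate) (hg : C.Big K g) (hl : lev g ≤ l) : bd C K Z Del g ≤ β * leaf C K X g := by
  classical
  have key : ∀ (m : ℕ) (g : C.Gate), g.val = m → C.Big K g → lev g ≤ l →
      bd C K Z Del g ≤ β * leaf C K X g := by
    intro m
    induction m using Nat.strong_induction_on with
    | _ m ih =>
      intro g hgm hg hl
      rw [leaf_eq, mul_sum]
      refine (bd_sub C K Z Del g).trans (sum_le_sum fun i _ => ?_)
      have h1 : 1 ≤ leafS C K X (C.src g i) ∨ ∃ h, C.src g i = Sum.inr h ∧ C.Big K h ∧ h ∉ X ∧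
          ¬ C.Shared K h ∧ leafS C K X (C.src g i) = leaf C K X h := by
        rcases leafS_cases C K X (C.src g i) with h | h
        · exact Or.inl h.ge
        · exact Or.inr h
      rcases h1 with h1 | ⟨h, hσ, hB, hX, hsh, he⟩
      · have h2 : bds C K Z Del (C.src g i) ≤ β ∨ ∃ h, C.src g i = Sum.inr h ∧ C.Big K h ∧
            h ∉ Z ∧ ¬ C.Shared K h ∧ bds C K Z Del (C.src g i) = bd C K Z Del h := by
          rcases bds_cases C K Z Del (C.src g i) with h | ⟨h, hσ, hB, hZ, he⟩
          · exact Or.inl (h.trans hβ)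
          · by_cases hsh : C.Shared K h
            · left
              rw [he]
              have hX : h ∉ X := fun hx => hZ (hXZ h hx hB)
              have := (hlev.1 g i h hg hB hX hσ).2 hsh
              exact hb h hB hZ hsh (by omega)
            · exact Or.inr ⟨h, hσ, hB, hZ, hsh, he⟩
        rcases h2 with h2 | ⟨h, hσ, hB, hZ, hsh, he⟩
        · exact h2.trans (Nat.le_mul_of_pos_right _ h1)
        · have hX : h ∉ X := fun hx => hZ (hXZ h hx hB)
          have h3 := (hlev.1 g i h hg hB hX hσ).1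
          have h4 := ih h.val (hgm ▸ C.src_lt g i h hσ) h rfl hB (h3.trans hl)
          rw [he]
          refine h4.trans (Nat.mul_le_mul_left _ (le_of_eq ?_))
          rcases leafS_cases C K X (C.src g i) with h5 | ⟨h', hσ', -, -, -, he'⟩
          · rw [hσ] at h5 ⊢
            unfold leafS Circuit.look at h5 ⊢
            simp only at h5 ⊢
            have hc : ¬ (C.Small K h ∨ h ∈ X ∨ C.Shared K h) := by
              push Not
              exact ⟨hB, hX, hsh⟩
            rw [if_neg hc]
          · rw [he']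
            rw [hσ] at hσ'
            rw [Sum.inr_injective hσ']
      · rw [he]
        rcases bds_cases C K Z Del (C.src g i) with h2 | ⟨h', hσ', hB', hZ', he'⟩
        · by_cases h0 : 1 ≤ leaf C K X h
          · exact (h2.trans hβ).trans (Nat.le_mul_of_pos_right _ h0)
          · have h3 := (hlev.1 g i h hg hB hX hσ).1
            have h4 := ih h.val (hgm ▸ C.src_lt g i h hσ) h rfl hB (h3.trans hl)
            by_cases hZ : h ∈ Z
            · unfold bds
              rw [hσ, belS_mem hB hZ, empty_sdiff, card_empty]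
              exact Nat.zero_le _
            · unfold bds
              rw [hσ, belS_big hB hZ]
              exact h4
        · rw [he']
          have h3 := (hlev.1 g i h hg hB hX hσ).1
          rw [hσ] at hσ'
          have h5 := Sum.inr_injective hσ'
          subst h5
          exact ih h.val (hgm ▸ C.src_lt g i h hσ) h rfl hB (h3.trans hl)
  exact key g.val g rfl hg hl

/-- Cutting and deleting more decreases the number of variables below. -/
theorem bel_anti {Z Z' : Finset C.Gate} (h : Z ⊆ Z') (g : C.Gate) :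
    bel C K Z' g ⊆ bel C K Z g := by
  classical
  have key : ∀ (m : ℕ) (g : C.Gate), g.val = m → bel C K Z' g ⊆ bel C K Z g := by
    intro m
    induction m using Nat.strong_induction_on with
    | _ m ih =>
      intro g hgm w hw
      rw [bel_eq, mem_biUnion] at hw ⊢
      obtain ⟨i, hi, hwi⟩ := hw
      refine ⟨i, hi, ?_⟩
      rcases hσ : C.src g i with v | h'
      · rw [hσ, belS_inl] at hwi
        rw [belS_inl]
        exact hwi
      · rw [hσ] at hwi
        by_cases hs : C.Small K h'
        · rw [belS_small hs] at hwi ⊢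
          exact hwi
        · by_cases hZ' : h' ∈ Z'
          · rw [belS_mem hs hZ'] at hwi
            exact absurd hwi (notMem_empty _)
          · rw [belS_big hs hZ'] at hwi
            rw [belS_big hs fun hZ => hZ' (h hZ)]
            exact ih h'.val (hgm ▸ C.src_lt g i h' hσ) h' rfl hwi
  exact key g.val g rfl

theorem bd_anti {Z Z' : Finset C.Gate} {Del Del' : Finset W} (h : Z ⊆ Z') (hD : Del ⊆ Del')
    (g : C.Gate) : bd C K Z' Del' g ≤ bd C K Z Del g :=
  card_le_card (sdiff_subset_sdiff (bel_anti C K h g) hD)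

end Pool.Agent.Lib_MP_22d2c8_lv
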