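import Pool.Agent.Lib_MP_22d2c8_lv.Alpha

/-!
# One scale with deleted variables: averages over the translates of the grid sets
-/

set_option linter.unusedSectionVars false

namespace Pool.Agent.Lib_MP_22d2c8_lv

open Finset Pool.Agent.Lib_MP_22d2c8_sym Pool.Agent.Lib_MP_22d2c8_ol Pool.Agent.Lib_MP_22d2c8_oa

/-- The number of variables outside `Del` that are read below `h` on paths of big gates outside
`Z`. -/
noncomputable def bd {W U : Type} [DecidableEq W] (C : Circuit (W ⊕ U)) (K : ℕ)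
    (Z : Finset C.Gate) (Del : Finset W) (h : C.Gate) : ℕ := (bel C K Z h \ Del).card

variable {n : ℕ}

/-- The variables of the second player. -/
noncomputable def dS (n p L : ℕ) (v v' : ZMod p) (Del : Finset (Fin n ⊕ Fin n)) :
    Finset (Fin n ⊕ Fin n) := (dA n p L v Del).disjSum (dB n p L v' Del)

theorem dS_sub (p L : ℕ) (v v' : ZMod p) (Del : Finset (Fin n ⊕ Fin n)) :
    ∀ w ∈ dS n p L v v' Del, w ∈ gS n p L v v' ∧ w ∉ Del := by
  classical
  intro w hw
  unfold dS dA dB at hw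
  unfold gS
  rcases w with i | j
  · rw [inl_mem_disjSum, mem_filter] at hw
    exact ⟨inl_mem_disjSum.2 hw.1, hw.2⟩
  · rw [inr_mem_disjSum, mem_filter] at hw
    exact ⟨inr_mem_disjSum.2 hw.1, hw.2⟩

section

variable (C : Circuit (Inp n)) (K p L : ℕ) [hp : Fact p.Prime]

theorem tB_mono {W U : Type} [DecidableEq W] (C : Circuit (W ⊕ U)) (K : ℕ) {S T : Finset W}
    (h : S ⊆ T) : tB C K S ≤ tB C K T := by
  classical
  unfold tB
  refine card_le_card ?_
  intro q hq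
  rw [mem_filter] at hq ⊢
  exact ⟨hq.1, hq.2.1, hq.2.2.mono (inter_subset_inter_left h)⟩

theorem sum_eAB (Del : Finset (Fin n ⊕ Fin n)) :
    ∑ v : ZMod p, ∑ v' : ZMod p, (eA n p L v Del + eB n p L v' Del) ≤ p * L * Del.card := by
  classical
  have hc : Fintype.card (ZMod p) = p := ZMod.card p
  have hA : ∑ v : ZMod p, eA n p L v Del ≤ L * Del.toLeft.card := by
    have h1 : ∀ v : ZMod p, eA n p L v Del ≤ ∑ i ∈ Del.toLeft, if i ∈ gA n p L v then 1 else 0 := by
      intro v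
      unfold eA
      rw [← card_filter]
      refine card_le_card ?_
      intro i hi
      rw [mem_filter] at hi ⊢
      exact ⟨mem_toLeft.2 hi.2, hi.1⟩
    refine (sum_le_sum fun v _ => h1 v).trans ?_
    rw [sum_comm]
    refine (sum_le_sum fun i _ => ?_).trans (le_of_eq (by rw [sum_const, smul_eq_mul, mul_comm]) :
      ∑ _i ∈ Del.toLeft, L ≤ _)
    rw [← card_filter]
    exact marg_A i
  have hB : ∑ v : ZMod p, eB n p L v Del ≤ L * Del.toRight.card := by
    have h1 : ∀ v : ZMod p, eB n p L v Del ≤ ∑ i ∈ Del.toRight, if i ∈ gB n p L v then 1 else 0 := by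
      intro v
      unfold eB
      rw [← card_filter]
      refine card_le_card ?_
      intro i hi
      rw [mem_filter] at hi ⊢
      exact ⟨mem_toRight.2 hi.2, hi.1⟩
    refine (sum_le_sum fun v _ => h1 v).trans ?_
    rw [sum_comm]
    refine (sum_le_sum fun i _ => ?_).trans (le_of_eq (by rw [sum_const, smul_eq_mul, mul_comm]) :
      ∑ _i ∈ Del.toRight, L ≤ _)
    rw [← card_filter]
    exact marg_B i
  have hD : Del.toLeft.card + Del.toRight.card = Del.card := card_toLeft_add_card_toRight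
  simp only [sum_add_distrib, sum_const, card_univ, hc, smul_eq_mul]
  rw [← mul_sum]
  calc p * ∑ v : ZMod p, eA n p L v Del + p * ∑ v' : ZMod p, eB n p L v' Del
      ≤ p * (L * Del.toLeft.card) + p * (L * Del.toRight.card) :=
        Nat.add_le_add (Nat.mul_le_mul_left _ hA) (Nat.mul_le_mul_left _ hB)
    _ = p * L * (Del.toLeft.card + Del.toRight.card) := by ring
    _ = p * L * Del.card := by rw [hD]

open Classical in
theorem sum_wsh_del (Z : Finset C.Gate) (Del : Finset (Fin n ⊕ Fin n)) :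
    ∑ v : ZMod p, ∑ v' : ZMod p, wsh C K (dS n p L v v' Del) Z ≤
      ∑ h ∈ univ.filter (fun h => C.Big K h ∧ h ∉ Z ∧ C.Shared K h),
        fo C K h * min (p * p) (p * L * bd C K Z Del h) := by
  have hc : Fintype.card (ZMod p) = p := ZMod.card p
  set H : Finset C.Gate := univ.filter (fun h => C.Big K h ∧ h ∉ Z ∧ C.Shared K h) with hH
  have h0 : ∀ v v' : ZMod p, wsh C K (dS n p L v v' Del) Z ≤
      ∑ h ∈ H, fo C K h * if ((bel C K Z h \ Del) ∩ gS n p L v v').Nonempty then 1 else 0 := by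
    intro v v'
    unfold wsh
    have h1 : (univ.filter fun h => C.Big K h ∧ h ∉ Z ∧ C.Shared K h ∧
        live C K (dS n p L v v' Del) Z h) = H.filter fun h => live C K (dS n p L v v' Del) Z h := by
      ext h
      simp only [hH, mem_filter]
      tauto
    rw [h1, sum_filter]
    refine sum_le_sum fun h _ => ?_
    split_ifs with h2 h3 h3
    · exact (mul_one _).ge
    · refine absurd ?_ h3
      obtain ⟨w, hw⟩ := live_bel (X := Z) (fun h hX _ => hX) h h2
      rw [mem_inter] at hw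
      have hw2 := dS_sub p L v v' Del w hw.2
      exact ⟨w, mem_inter.2 ⟨mem_sdiff.2 ⟨hw.1, hw2.2⟩, hw2.1⟩⟩
    · exact Nat.zero_le _
    · exact Nat.zero_le _
  have hcomm : ∀ f : ZMod p → ZMod p → C.Gate → ℕ,
      ∑ v : ZMod p, ∑ v' : ZMod p, ∑ w ∈ H, f v v' w =
        ∑ w ∈ H, ∑ v : ZMod p, ∑ v' : ZMod p, f v v' w := by
    intro f
    calc ∑ v : ZMod p, ∑ v' : ZMod p, ∑ w ∈ H, f v v' w
        = ∑ v : ZMod p, ∑ w ∈ H, ∑ v' : ZMod p, f v v' w := sum_congr rfl fun v _ => sum_comm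
      _ = _ := sum_comm
  calc ∑ v : ZMod p, ∑ v' : ZMod p, wsh C K (dS n p L v v' Del) Z
      ≤ ∑ v : ZMod p, ∑ v' : ZMod p,
          ∑ h ∈ H, fo C K h * (if ((bel C K Z h \ Del) ∩ gS n p L v v').Nonempty then 1 else 0) :=
        sum_le_sum fun v _ => sum_le_sum fun v' _ => h0 v v'
    _ = ∑ h ∈ H, ∑ v : ZMod p, ∑ v' : ZMod p,
          fo C K h * (if ((bel C K Z h \ Del) ∩ gS n p L v v').Nonempty then 1 else 0) := hcomm _
    _ = ∑ h ∈ H, fo C K h * ∑ v : ZMod p, ∑ v' : ZMod p,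
          (if ((bel C K Z h \ Del) ∩ gS n p L v v').Nonempty then 1 else 0) := by
        refine sum_congr rfl fun h _ => ?_
        simp only [← mul_sum]
    _ ≤ ∑ h ∈ H, fo C K h * min (p * p) (p * L * bd C K Z Del h) := by
        refine sum_le_sum fun h _ => Nat.mul_le_mul_left _ (le_min ?_ ?_)
        · calc ∑ v : ZMod p, ∑ v' : ZMod p,
                (if ((bel C K Z h \ Del) ∩ gS n p L v v').Nonempty then 1 else 0)
              ≤ ∑ v : ZMod p, ∑ v' : ZMod p, 1 := sum_le_sum fun v _ => sum_le_sum fun v' _ => by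
                split <;> omega
            _ = p * p := by
                simp only [sum_const, card_univ, hc, smul_eq_mul, mul_one]
        · refine (aver_set p L (bel C K Z h \ Del)).trans (le_of_eq ?_)
          unfold bd
          ring

/-- The inequality of one scale, with the variables in `Del` deleted. -/
theorem one_scale (hn : 2 * p * p ≤ n) (ω k : ℕ)
    (hop : ∀ g, C.Big K g → SubPow (2 ^ ω) (C.op g))
    (hagr : 2 * ((2 : ℝ) ^ (2 * n - 1) * 2 ^ (2 * n)) / 2 ^ k ≤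
      ∑ x, sgn (C.val x C.out) * sgn (hank x))
    (hout : C.Big K C.out) (Z : Finset C.Gate) (hZ : ∀ g ∈ Z, C.Big K g)
    (Del : Finset (Fin n ⊕ Fin n)) (hDel : 64 * Del.card ≤ p * p)
    (hP : 32 * (2 + 2 * ω + 2 ^ max K 1) ≤ p) (hL1 : 1 ≤ L) (hi : (2 * (2 + ω)) * L ≤ p)
    (hZc : Z.card + 2 * k + 2 ≤ p * L / 16) :
    (p : ℝ) ^ 2 ≤ (32 * (3 * ω + 2 * 2 ^ max K 1)) *
      ((L : ℝ) / p * ((max K 1 * C.wires K : ℕ) : ℝ) +
        ∑ h ∈ @univ.filter _ (fun h => C.Big K h ∧ h ∉ Z ∧ C.Shared K h) (Classical.decPred _),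
          (fo C K h : ℝ) * min 1 ((bd C K Z Del h : ℝ) * L / p)) := by
  classical
  have hωL : (2 + ω) * (2 * L) ≤ p := by
    calc (2 + ω) * (2 * L) = 2 * (2 + ω) * L := by ring
      _ ≤ p := hi
  have hL2 : 2 * L ≤ p := by
    refine le_trans ?_ hωL
    exact Nat.le_mul_of_pos_left _ (by omega)
  have h2K : 1 ≤ 2 ^ max K 1 := Nat.one_le_two_pow
  have hp32 : 64 ≤ p := by omega
  have h2p : p ≠ 2 := by omega
  have hpR : (0 : ℝ) < p := by exact_mod_cast (by omega : 0 < p)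
  have hLpos : (0 : ℝ) < (L : ℝ) := by exact_mod_cast hL1
  set V := max K 1 * C.wires K with hV
  set Q : ℝ := 3 * ω + 2 * 2 ^ max K 1 with hQ
  have hQ0 : 0 ≤ Q := by positivity
  set ρ := p * L / 16 with hρ
  have hρ1 : 16 * ρ ≤ p * L := by
    rw [hρ, mul_comm 16]
    exact Nat.div_mul_le_self _ _
  have hZk : Z.card + 2 * k ≤ ρ := by omega
  have hρn : ρ ≤ n := by
    have h1 : p * L ≤ p * p := Nat.mul_le_mul_left _ (by omega)
    have h2 : 2 * p * p = 2 * (p * p) := by ring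
    omega
  set T : ZMod p → ZMod p → ℝ := fun v v' => (tB C K (dS n p L v v' Del) : ℝ) +
    (wsh C K (dS n p L v v' Del) Z : ℝ) with hT
  set E : ZMod p → ZMod p → ℝ := fun v v' => ((eA n p L v Del + eB n p L v' Del : ℕ) : ℝ) with hE
  have hT0 : ∀ v v', 0 ≤ T v v' := fun v v' => by positivity
  have hE0 : ∀ v v', 0 ≤ E v v' := fun v v' => Nat.cast_nonneg _
  have hfl : (p : ℝ) ^ 2 / 8 - 1 ≤ ((p * p / 8 : ℕ) : ℝ) := by
    have h1 : p * p < 8 * (p * p / 8) + 8 := by omega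
    have h2 : (p : ℝ) * p < 8 * ((p * p / 8 : ℕ) : ℝ) + 8 := by exact_mod_cast h1
    linarith [sq (p : ℝ)]
  have hA : ∀ v v' : ZMod p, (p : ℝ) ^ 2 / 8 - 1 ≤ (1 + ω) * (ρ : ℝ) +
      (1 + 2 * ω + 2 ^ max K 1) + Q * T v v' + 2 * p / L * E v v' := by
    intro v v'
    have hE1 : 0 ≤ 2 * p / L * E v v' := mul_nonneg (by positivity) (hE0 v v')
    by_cases hsm : 16 * (eA n p L v Del + eB n p L v' Del) ≤ p * L
    · obtain ⟨α, hα⟩ := exists_alpha (dA n p L v Del) (dB n p L v' Del)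
        (fun x => sgn (C.val x C.out)) _ hagr
      have hlow := lows_del h2p hn hL1 hL2 v v' Del (by omega) (by omega)
      have h1 := one_alpha_gen (dA n p L v Del) (dB n p L v' Del) ρ (p * p / 8) hρn hlow C K ω k
        hop hout Z hZ hZc α hα
      have h2 : ((p * p / 8 : ℕ) : ℝ) ≤ ((Z.card +
          (ω * ((2 * (tB C K (dS n p L v v' Del) + wsh C K (dS n p L v v' Del) Z) + 1) +
            (Z.card + 1 + (tB C K (dS n p L v v' Del) + wsh C K (dS n p L v v' Del) Z))) +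
            2 ^ max K 1 * (2 * (tB C K (dS n p L v v' Del) +
              wsh C K (dS n p L v v' Del) Z) + 1)) + 2 * k : ℕ) : ℝ) :=
        Nat.cast_le.2 h1
      have h3 : (Z.card : ℝ) + 2 * k ≤ ρ := by exact_mod_cast hZk
      have h4 : (ω : ℝ) * Z.card ≤ ω * ρ := by
        refine mul_le_mul_of_nonneg_left ?_ (Nat.cast_nonneg _)
        exact_mod_cast (by omega : Z.card ≤ ρ)
      refine hfl.trans (h2.trans ?_)
      have h5 : ((Z.card + (ω * ((2 * (tB C K (dS n p L v v' Del) +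
          wsh C K (dS n p L v v' Del) Z) + 1) + (Z.card + 1 + (tB C K (dS n p L v v' Del) +
          wsh C K (dS n p L v v' Del) Z))) + 2 ^ max K 1 * (2 * (tB C K (dS n p L v v' Del) +
          wsh C K (dS n p L v v' Del) Z) + 1)) + 2 * k : ℕ) : ℝ) = (Z.card + 2 * k) + ω * Z.card +
          (2 * ω + 2 ^ max K 1) + Q * T v v' := by
        rw [hQ, hT]
        push_cast
        ring
      rw [h5]
      linarith
    · have h1 : p * L ≤ 16 * (eA n p L v Del + eB n p L v' Del) := by omega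
      have h2 : (p : ℝ) * L ≤ 16 * E v v' := by
        have h0 : ((p * L : ℕ) : ℝ) ≤ ((16 * (eA n p L v Del + eB n p L v' Del) : ℕ) : ℝ) :=
          Nat.cast_le.2 h1
        rw [Nat.cast_mul, Nat.cast_mul] at h0
        refine h0.trans (le_of_eq ?_)
        norm_num [hE]
      have h3 : (p : ℝ) ^ 2 / 8 ≤ 2 * p / L * E v v' := by
        have h4 : (p : ℝ) ^ 2 / 8 = 2 * p / L * (p * L / 16) := by
          field_simp
          ring
        rw [h4]
        refine mul_le_mul_of_nonneg_left ?_ (by positivity)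
        linarith
      have h5 : 0 ≤ (1 + (ω : ℝ)) * (ρ : ℝ) + (1 + 2 * ω + 2 ^ max K 1) + Q * T v v' := by
        have := mul_nonneg hQ0 (hT0 v v')
        positivity
      linarith
  have hcard : ((univ : Finset (ZMod p)).card : ℝ) = p := by
    rw [card_univ, ZMod.card]
  have hsum : (p : ℝ) ^ 2 * ((p : ℝ) ^ 2 / 8 - 1) ≤
      (p : ℝ) ^ 2 * ((1 + ω) * (ρ : ℝ) + (1 + 2 * ω + 2 ^ max K 1)) +
      Q * (∑ v : ZMod p, ∑ v' : ZMod p, T v v') +
      2 * p / L * ∑ v : ZMod p, ∑ v' : ZMod p, E v v' := by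
    have h1 : ∑ v : ZMod p, ∑ v' : ZMod p, ((p : ℝ) ^ 2 / 8 - 1) ≤
        ∑ v : ZMod p, ∑ v' : ZMod p, ((1 + ω) * (ρ : ℝ) + (1 + 2 * ω + 2 ^ max K 1) +
          Q * T v v' + 2 * p / L * E v v') :=
      sum_le_sum fun v _ => sum_le_sum fun v' _ => hA v v'
    simp only [sum_const, sum_add_distrib, nsmul_eq_mul, hcard, ← mul_sum] at h1
    calc (p : ℝ) ^ 2 * ((p : ℝ) ^ 2 / 8 - 1) = p * (p * ((p : ℝ) ^ 2 / 8 - 1)) := by ring
      _ ≤ _ := h1
      _ = _ := by ring
  set X2 := ∑ h ∈ univ.filter (fun h => C.Big K h ∧ h ∉ Z ∧ C.Shared K h),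
    (fo C K h : ℝ) * min 1 ((bd C K Z Del h : ℝ) * L / p) with hX2
  have ht1 : (∑ v : ZMod p, ∑ v' : ZMod p, (tB C K (dS n p L v v' Del) : ℝ)) ≤
      (p : ℝ) * L * V := by
    have h1 := sum_tB C K p L
    have h0 : ∑ v : ZMod p, ∑ v' : ZMod p, tB C K (dS n p L v v' Del) ≤
        ∑ v : ZMod p, ∑ v' : ZMod p, tB C K (gS n p L v v') :=
      sum_le_sum fun v _ => sum_le_sum fun v' _ =>
        tB_mono C K fun w hw => (dS_sub p L v v' Del w hw).1
    have h2 : ((∑ v : ZMod p, ∑ v' : ZMod p, tB C K (dS n p L v v' Del) : ℕ) : ℝ) ≤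
        ((p * L * (max K 1 * C.wires K) : ℕ) : ℝ) := Nat.cast_le.2 (h0.trans h1)
    refine le_trans (le_of_eq ?_) (h2.trans (le_of_eq ?_))
    · push_cast
      rfl
    · push_cast
      rw [hV]
      push_cast
      ring
  have ht2 : (∑ v : ZMod p, ∑ v' : ZMod p, (wsh C K (dS n p L v v' Del) Z : ℝ)) ≤
      (p : ℝ) * (p * X2) := by
    have h1 := sum_wsh_del C K p L Z Del
    have h2 : ((∑ v : ZMod p, ∑ v' : ZMod p, wsh C K (dS n p L v v' Del) Z : ℕ) : ℝ) ≤
        ((∑ h ∈ univ.filter (fun h => C.Big K h ∧ h ∉ Z ∧ C.Shared K h),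
          fo C K h * min (p * p) (p * L * bd C K Z Del h) : ℕ) : ℝ) := by
      refine (Nat.cast_le.2 h1).trans (le_of_eq ?_)
      congr!
    refine le_trans (le_of_eq (by push_cast; rfl)) (h2.trans ?_)
    rw [hX2, mul_sum, mul_sum, Nat.cast_sum]
    refine sum_le_sum fun h _ => ?_
    have h3 : (p : ℝ) * (p * ((fo C K h : ℝ) * min 1 ((bd C K Z Del h : ℝ) * L / p))) =
        (fo C K h : ℝ) * ((min (p * p) (p * L * bd C K Z Del h) : ℕ) : ℝ) := by
      have e1 : (p : ℝ) * p * min 1 ((bd C K Z Del h : ℝ) * L / p) =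
          ((min (p * p) (p * L * bd C K Z Del h) : ℕ) : ℝ) := by
        rw [mul_min_of_nonneg _ _ (by positivity), Nat.cast_min]
        push_cast
        congr 1
        · ring
        · field_simp
      rw [← e1]
      ring
    rw [h3, Nat.cast_mul]
  have hTs : ∑ v : ZMod p, ∑ v' : ZMod p, T v v' ≤ (p : ℝ) * L * V + p * (p * X2) := by
    have h1 : ∑ v : ZMod p, ∑ v' : ZMod p, T v v' =
        (∑ v : ZMod p, ∑ v' : ZMod p, (tB C K (dS n p L v v' Del) : ℝ)) +
        ∑ v : ZMod p, ∑ v' : ZMod p, (wsh C K (dS n p L v v' Del) Z : ℝ) := by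
      simp only [hT, sum_add_distrib]
    rw [h1]
    exact add_le_add ht1 ht2
  have hEs : 2 * p / L * ∑ v : ZMod p, ∑ v' : ZMod p, E v v' ≤ (p : ℝ) ^ 2 * ((p : ℝ) ^ 2 / 32) := by
    have h1 := sum_eAB p L Del
    have h2 : ∑ v : ZMod p, ∑ v' : ZMod p, E v v' ≤ (p : ℝ) * L * Del.card := by
      have h3 : ((∑ v : ZMod p, ∑ v' : ZMod p, (eA n p L v Del + eB n p L v' Del) : ℕ) : ℝ) ≤
        ((p * L * Del.card : ℕ) : ℝ) := Nat.cast_le.2 h1
      refine le_trans (le_of_eq ?_) (h3.trans (le_of_eq ?_))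
      · rw [hE]
        push_cast
        rfl
      · push_cast
        ring
    have h4 : (64 : ℝ) * Del.card ≤ p * p := by exact_mod_cast hDel
    calc 2 * p / L * ∑ v : ZMod p, ∑ v' : ZMod p, E v v' ≤ 2 * p / L * ((p : ℝ) * L * Del.card) :=
          mul_le_mul_of_nonneg_left h2 (by positivity)
      _ = (p : ℝ) ^ 2 * (2 * Del.card) := by
          field_simp
      _ ≤ (p : ℝ) ^ 2 * ((p : ℝ) ^ 2 / 32) := by
          refine mul_le_mul_of_nonneg_left ?_ (by positivity)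
          linarith [sq (p : ℝ)]
  have hZc' : ((1 : ℝ) + ω) * ρ ≤ (p : ℝ) ^ 2 / 32 := by
    have h2 : 32 * ((1 + ω) * ρ) ≤ p * p := by
      calc 32 * ((1 + ω) * ρ) = (1 + ω) * 2 * (16 * ρ) := by ring
        _ ≤ (1 + ω) * 2 * (p * L) := Nat.mul_le_mul_left _ hρ1
        _ = p * ((1 + ω) * (2 * L)) := by ring
        _ ≤ p * p := Nat.mul_le_mul_left _
            (le_trans (Nat.mul_le_mul_right _ (by omega)) hωL)
    have h3 : (32 : ℝ) * ((1 + ω) * ρ) ≤ p * p := by exact_mod_cast h2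
    linarith [sq (p : ℝ)]
  have hP' : (1 : ℝ) + 2 * ω + 2 ^ max K 1 ≤ (p : ℝ) ^ 2 / 32 - 1 := by
    have h1 : (32 : ℝ) * (2 + 2 * ω + 2 ^ max K 1) ≤ p := by exact_mod_cast hP
    have h2 : (p : ℝ) ≤ (p : ℝ) ^ 2 := by
      have : (1 : ℝ) ≤ p := by exact_mod_cast (by omega : 1 ≤ p)
      nlinarith
    linarith
  have hp2 : (0 : ℝ) < (p : ℝ) ^ 2 := by positivity
  have hfin : (p : ℝ) ^ 2 * ((p : ℝ) ^ 2 / 32) ≤ Q * ((p : ℝ) * L * V + p * (p * X2)) := by
    have h2 : (p : ℝ) ^ 2 * ((1 + ω) * (ρ : ℝ) + (1 + 2 * ω + 2 ^ max K 1)) ≤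
        (p : ℝ) ^ 2 * ((p : ℝ) ^ 2 / 32 + ((p : ℝ) ^ 2 / 32 - 1)) :=
      mul_le_mul_of_nonneg_left (add_le_add hZc' hP') hp2.le
    have h3 := mul_le_mul_of_nonneg_left hTs hQ0
    linarith
  have h1 : (p : ℝ) ^ 2 * (32 * Q * ((L : ℝ) / p * V + X2)) =
      32 * (Q * ((p : ℝ) * L * V + p * (p * X2))) := by
    field_simp
  have h2 : (p : ℝ) ^ 2 * (p : ℝ) ^ 2 ≤ (p : ℝ) ^ 2 * (32 * Q * ((L : ℝ) / p * V + X2)) := by
    rw [h1]
    linarith
  refine (le_of_mul_le_mul_left h2 hp2).trans (le_of_eq ?_)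
  rw [hX2]
  congr!

end

end Pool.Agent.Lib_MP_22d2c8_lv
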